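import Pool.Agent.H17.BO.Defs

/-!
# MP_70ba79_ag: targets of the board `bo_modules`, part D (descent and compactness)

Part D1: `k` is algebraically closed in `L`, not algebraically closed. Part D2: an ultraproduct
`L` of function fields `K i`; `k'` are the elements of height `O (B i)`.
-/

set_option autoImplicit false

namespace Pool.Agent.H17.BO

open MvPolynomial SC Pool.Agent.H27.LV Pool.Agent.H17.VG

/-- multiplication of a monomial by `X j` -/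
def sh {n d : ℕ} (j : Fin (n + 1)) (M : Mon (n + 1) d) : Mon (n + 1) (d + 1) :=
  ⟨fun i => M.1 i + if i = j then 1 else 0, by
    rw [Finset.sum_add_distrib, M.2, Finset.sum_ite_eq' Finset.univ j (fun _ => 1)]
    simp⟩

/-- FNX: formulas for functionals -/
def T_FNX : Prop := ∀ (K : Type) [Field K] (n d : ℕ) (y : Mon (n + 1) (d + 1) → K)
  (Q : Mon (n + 1) d → K) (c : Mon (n + 1) (d + 1) → K) (j : Fin (n + 1)),
  fnl y (X j * frm Q) = ∑ M, Q M * y (sh j M) ∧ fnl y (frm c) = ∑ M, y M * c M ∧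
  pderiv j (frm c) = frm (fun M : Mon (n + 1) d => ((M.1 j + 1 : ℕ) : K) * c (sh j M))

/-- QD: the determinants of all forms from those of the sums of two monomials -/
def T_QD : Prop := ∀ (k L : Type) [Field k] [CharZero k] [Field L] [Algebra k L] (n e : ℕ)
  (x : Fin (n + 1) → L) (y : Fin 2 → Mon (n + 1) (e + 1) → L) (κ : L),
  (∀ (M M' : Mon (n + 1) e) (a : Fin 3 → Fin (n + 1)), ∃ r : k,
    det3 x y (frm (Pi.single M 1 + Pi.single M' 1)) a = κ * algebraMap k L r) →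
  ∀ (Q : Mon (n + 1) e → k) (a : Fin 3 → Fin (n + 1)), ∃ r : k,
    det3 x y (up L (frm Q)) a = κ * algebraMap k L r

/-- LDJ: linear disjointness -/
def T_LDJ : Prop := ∀ (k L Ω : Type) [Field k] [CharZero k] [Field L] [Field Ω] [Algebra k L]
  [Algebra L Ω] [Algebra k Ω] [IsScalarTower k L Ω],
  (∀ z : L, IsAlgebraic k z → z ∈ Set.range (algebraMap k L)) →
  ∀ (ι : Type) [Fintype ι] (x : ι → L) (a : ι → Ω), (∀ i, IsAlgebraic k (a i)) →
  ∑ i, algebraMap L Ω (x i) * a i = 0 → LinearIndependent k x → ∀ i, a i = 0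

/-- the bilinear form `q` -/
def bil {K : Type} [Field K] (q : Matrix (Fin 3) (Fin 3) K) (u v : Fin 3 → K) : K :=
  ∑ a, ∑ b, q a b * u a * v b

/-- `A + T B + T ^ 2 C` is on the conic `q`, for all `T` -/
structure OnC {K : Type} [Field K] (q : Matrix (Fin 3) (Fin 3) K) (A B C : Fin 3 → K) : Prop where
  ind : LinearIndependent K ![A, B, C]
  aa : bil q A A = 0
  ab : bil q A B = 0
  bb : bil q B B + 2 * bil q A C = 0
  bc : bil q B C = 0
  cc : bil q C C = 0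

/-- PAR: parametrisation of a conic with a rational point -/
def T_PAR : Prop := ∀ (K : Type) [Field K] [CharZero K] (q : Matrix (Fin 3) (Fin 3) K),
  q.IsSymm → q.det ≠ 0 → ∀ A : Fin 3 → K, A ≠ 0 → bil q A A = 0 → ∃ B C, OnC q A B C

/-- CSU: all points are in the image of a parametrisation -/
def T_CSU : Prop := ∀ (K : Type) [Field K] [CharZero K] (q : Matrix (Fin 3) (Fin 3) K),
  q.IsSymm → q.det ≠ 0 → ∀ A B C : Fin 3 → K, OnC q A B C → ∀ y : Fin 3 → K, y ≠ 0 →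
  bil q y y = 0 → ∃ l s t : K, l ≠ 0 ∧ (s ≠ 0 ∨ t ≠ 0) ∧
    ∀ i, y i = l * (s ^ 2 * A i + s * t * B i + t ^ 2 * C i)

/-- IMP: a quadratic equation for a parametrised conic -/
def T_IMP : Prop := ∀ (K : Type) [Field K] [CharZero K] (A B C : Fin 3 → K),
  LinearIndependent K ![A, B, C] →
  ∃ q : Matrix (Fin 3) (Fin 3) K, q.IsSymm ∧ q.det ≠ 0 ∧ OnC q A B C

/-- TW2: a polynomial with at most two different zeros, infinity included -/
def T_TW2 : Prop := ∀ (K : Type) [Field K] [CharZero K] (N : ℕ) (W : Polynomial K),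
  W.natDegree ≤ N → W.coeff 0 ≠ 0 →
  (∀ α β γ : AlgebraicClosure K, (W.map (algebraMap K (AlgebraicClosure K))).eval α = 0 →
    (W.map (algebraMap K (AlgebraicClosure K))).eval β = 0 →
    (W.map (algebraMap K (AlgebraicClosure K))).eval γ = 0 → α = β ∨ β = γ ∨ α = γ) →
  (W.natDegree < N → ∀ α β : AlgebraicClosure K,
    (W.map (algebraMap K (AlgebraicClosure K))).eval α = 0 →
    (W.map (algebraMap K (AlgebraicClosure K))).eval β = 0 → α = β) →
  ∃ (α β : AlgebraicClosure K) (i j : ℕ), i + j = N ∧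
    W.map (algebraMap K (AlgebraicClosure K)) =
      Polynomial.C (algebraMap K (AlgebraicClosure K) (W.coeff 0)) *
        (1 + Polynomial.C α * Polynomial.X) ^ i * (1 + Polynomial.C β * Polynomial.X) ^ j

/-- KLL: descent of lines -/
def T_KLL : Prop := ∀ (k L k' Ω : Type) [Field k] [CharZero k] [Field L] [Field k'] [Field Ω]
  [Algebra k L] [Algebra k k'] [Algebra k' Ω] [Algebra L Ω] [Algebra k Ω]
  [IsScalarTower k L Ω] [IsScalarTower k k' Ω],
  (∀ z : L, IsAlgebraic k z → z ∈ Set.range (algebraMap k L)) →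
  (∀ z : k', IsAlgebraic k z) → ∀ (m : ℕ) (x : Fin m → L),
  OnLine k' (fun i => algebraMap L Ω (x i)) → OnLine k x

/-- KLC: descent of conics -/
def T_KLC : Prop := ∀ (k L k' Ω : Type) [Field k] [CharZero k] [Field L] [Field k'] [Field Ω]
  [Algebra k L] [Algebra k k'] [Algebra k' Ω] [Algebra L Ω] [Algebra k Ω]
  [IsScalarTower k L Ω] [IsScalarTower k k' Ω],
  (∀ z : L, IsAlgebraic k z → z ∈ Set.range (algebraMap k L)) →
  (∀ z : k', IsAlgebraic k z) → ∀ (n : ℕ) (x : Fin (n + 1) → L), ¬ OnLine k x →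
  ∀ A B C : Fin (n + 1) → k', LinearIndependent k' ![A, B, C] → ∀ l s0 t0 : Ω,
  (∀ i, algebraMap L Ω (x i) = l * (s0 ^ 2 * algebraMap k' Ω (A i) +
    s0 * t0 * algebraMap k' Ω (B i) + t0 ^ 2 * algebraMap k' Ω (C i))) →
  ∃ (s : Fin 3 → Fin (n + 1)) (P : Fin (n + 1) → Fin 3 → k) (q : Matrix (Fin 3) (Fin 3) k),
    (∀ t u, P (s t) u = if t = u then 1 else 0) ∧
    (∀ j, x j = ∑ a, algebraMap k L (P j a) * x (s a)) ∧ q.IsSymm ∧ q.det ≠ 0 ∧
    bil (q.map (algebraMap k L)) (fun a => x (s a)) (fun a => x (s a)) = 0 ∧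
    (∀ j, A j = ∑ a, algebraMap k k' (P j a) * A (s a)) ∧
    (∀ j, B j = ∑ a, algebraMap k k' (P j a) * B (s a)) ∧
    (∀ j, C j = ∑ a, algebraMap k k' (P j a) * C (s a)) ∧
    OnC (q.map (algebraMap k k')) (fun a => A (s a)) (fun a => B (s a)) (fun a => C (s a))

/-- BZ: zeros of a binary form -/
def T_BZ : Prop := ∀ (k : Type) [Field k] [IsAlgClosed k] [CharZero k] (n d : ℕ)
  (F : MvPolynomial (Fin (n + 1)) k), F.IsHomogeneous d → ∀ A B C : Fin (n + 1) → k,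
  (∃ s t : Fin 3 → k, (∀ i j, i ≠ j → s i * t j ≠ s j * t i) ∧
    ∀ i, eval (fun l => s i ^ 2 * A l + s i * t i * B l + t i ^ 2 * C l) F = 0) ∨
  (∀ s t : k, eval (fun l => s ^ 2 * A l + s * t * B l + t ^ 2 * C l) F = 0) ∨
  ∃ s t : Fin 2 → k, (∀ i, s i ≠ 0 ∨ t i ≠ 0) ∧
    ∀ (Ω : Type) [Field Ω] [Algebra k Ω] (u v : Ω),
    eval (fun l => u ^ 2 * algebraMap k Ω (A l) + u * v * algebraMap k Ω (B l) +
      v ^ 2 * algebraMap k Ω (C l)) (MvPolynomial.map (algebraMap k Ω) F) = 0 →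
    ∃ i, u * algebraMap k Ω (t i) = v * algebraMap k Ω (s i)

/-- KL3: three points -/
def T_KL3 : Prop := ∀ (k k' : Type) [Field k] [CharZero k] [Field k'] [Algebra k k'],
  (∀ z : k', IsAlgebraic k z) → ∀ (n : ℕ) (F : MvPolynomial (Fin (n + 1)) k),
  ∀ (P : Fin (n + 1) → Fin 3 → k) (q : Matrix (Fin 3) (Fin 3) k) (y : Fin 3 → Fin 3 → k'),
  (Matrix.of y).det ≠ 0 → (∀ j, bil (q.map (algebraMap k k')) (y j) (y j) = 0) →
  (∀ j, eval (fun i => ∑ a, algebraMap k k' (P i a) * y j a)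
    (MvPolynomial.map (algebraMap k k') F) = 0) →
  ∃ (U V : Polynomial k) (Y : Fin 3 → Fin 3 → Polynomial k), U.Monic ∧ U.Separable ∧
    1 ≤ U.natDegree ∧ (∀ j, U ∣ ∑ a, ∑ b, Polynomial.C (q a b) * Y j a * Y j b) ∧
    (∀ j, U ∣ aeval (fun i => ∑ a, Polynomial.C (P i a) * Y j a) F) ∧
    U ∣ (Matrix.of Y).det * V - 1

/-- KLV: the algebraic theorem relative to a field `k` which is algebraically closed in `L` -/
def T_KLV : Prop := ∀ (k L : Type) [Field k] [CharZero k] [Field L] [Algebra k L],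
  (∀ z : L, IsAlgebraic k z → z ∈ Set.range (algebraMap k L)) → ∀ n e : ℕ, 1 ≤ e →
  ∀ c : Mon (n + 1) (e + 2) → k, AlgebraicIndependent ℚ c →
  ∀ (x : Fin (n + 1) → L) (y : Fin 2 → Mon (n + 1) (e + 2) → L) (ν : Fin 2 → Fin (n + 1) → L),
  Fun2 (fun a => pderiv a (up L (frm c))) x y ν → (∀ b, ∑ i, ν b i * x i = 0) →
  eval x (up L (frm c)) ≠ 0 → ∀ κ : L,
  (∀ (M M' : Mon (n + 1) (e + 1)) (a : Fin 3 → Fin (n + 1)), ∃ r : k,
    det3 x y (frm (Pi.single M 1 + Pi.single M' 1)) a = κ * algebraMap k L r) →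
  (∃ (Q : Mon (n + 1) (e + 1) → k) (a : Fin 3 → Fin (n + 1)),
    det3 x y (up L (frm Q)) a ≠ 0) →
  OnLine k x ∨ (∃ B C, LinearIndependent L ![x, B, C] ∧
    TwoRoots2 (e + 2) (up L (frm c)) x B C) ∨
  ∃ (s : Fin 3 → Fin (n + 1)) (P : Fin (n + 1) → Fin 3 → k) (q : Matrix (Fin 3) (Fin 3) k)
    (U V : Polynomial k) (Y : Fin 3 → Fin 3 → Polynomial k),
    Con3 (up L (frm c)) x s (fun i a => algebraMap k L (P i a)) (q.map (algebraMap k L))
      (U.map (algebraMap k L)) (V.map (algebraMap k L))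
      (fun i a => (Y i a).map (algebraMap k L))

/-- ULF: ultraproducts of fields -/
def T_ULF : Prop := ∀ (K : ℕ → Type) [∀ i, Field (K i)] [∀ i, CharZero (K i)],
  ∃ (L : Type) (_ : Field L) (_ : CharZero L) (π : (∀ i, K i) →+* L),
    Function.Surjective π ∧ ∀ f, π f = 0 ↔ ∀ᶠ i in (Filter.hyperfilter ℕ : Filter ℕ), f i = 0

/-- HTA: heights of sums, products and inverses -/
def T_HTA : Prop := ∀ (k K : Type) [Field k] [IsAlgClosed k] [CharZero k] [Field K] [Algebra k K]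
  [Algebra.EssFiniteType k K], Algebra.trdeg k K = 1 → ∀ z w : K,
  h1 k (z + w) ≤ h1 k z + h1 k w ∧ h1 k (z * w) ≤ h1 k z + h1 k w ∧ h1 k z⁻¹ = h1 k z ∧
  (∀ a : k, h1 k (algebraMap k K a) = 0) ∧
  ∀ (ι : Type) [Fintype ι] (u : ι → K), (∀ i, h1 k (u i) ≤ deg k u) ∧
    deg k u ≤ ∑ i, h1 k (u i)

/-- HTR: heights of roots -/
def T_HTR : Prop := ∀ (k K : Type) [Field k] [IsAlgClosed k] [CharZero k] [Field K] [Algebra k K]
  [Algebra.EssFiniteType k K], Algebra.trdeg k K = 1 → ∀ (N : ℕ) (a : Fin N → K) (z : K),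
  z ^ N + ∑ i : Fin N, a i * z ^ (i : ℕ) = 0 → h1 k z ≤ ∑ i, h1 k (a i)

/-- ULT: ultraproducts of function fields, and the elements of height `O (B i)` -/
def T_ULT : Prop := ∀ (k K : ℕ → Type) [∀ i, Field (k i)] [∀ i, IsAlgClosed (k i)]
  [∀ i, CharZero (k i)] [∀ i, Field (K i)] [∀ i, Algebra (k i) (K i)]
  [∀ i, Algebra.EssFiniteType (k i) (K i)], (∀ i, Algebra.trdeg (k i) (K i) = 1) →
  ∀ B : ℕ → ℕ, ∃ (L : Type) (_ : Field L) (_ : CharZero L) (k' : Type) (_ : Field k')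
    (_ : CharZero k') (_ : Algebra k' L) (π : (∀ i, K i) →+* L), Function.Surjective π ∧
    (∀ f, π f = 0 ↔ ∀ᶠ i in (Filter.hyperfilter ℕ : Filter ℕ), f i = 0) ∧
    (∀ f, π f ∈ Set.range (algebraMap k' L) ↔
      ∃ N : ℕ, ∀ᶠ i in (Filter.hyperfilter ℕ : Filter ℕ), h1 (k i) (f i) ≤ N * B i) ∧
    ∀ z : L, IsAlgebraic k' z → z ∈ Set.range (algebraMap k' L)

/-- TFL: transfer of lines -/
def T_TFL : Prop := ∀ (k K : ℕ → Type) [∀ i, Field (k i)] [∀ i, IsAlgClosed (k i)]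
  [∀ i, CharZero (k i)] [∀ i, Field (K i)] [∀ i, Algebra (k i) (K i)]
  [∀ i, Algebra.EssFiniteType (k i) (K i)], (∀ i, Algebra.trdeg (k i) (K i) = 1) →
  ∀ (B : ℕ → ℕ) (L : Type) [Field L] (k' : Type) [Field k'] [Algebra k' L]
    (π : (∀ i, K i) →+* L), Function.Surjective π →
  (∀ f, π f = 0 ↔ ∀ᶠ i in (Filter.hyperfilter ℕ : Filter ℕ), f i = 0) →
  (∀ f, π f ∈ Set.range (algebraMap k' L) ↔
    ∃ N : ℕ, ∀ᶠ i in (Filter.hyperfilter ℕ : Filter ℕ), h1 (k i) (f i) ≤ N * B i) →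
  ∀ (n : ℕ) (x : ∀ i, Fin (n + 1) → K i) (p : ℕ → Fin (n + 1)), (∀ i, x i (p i) = 1) →
  OnLine k' (fun j => π fun i => x i j) →
  ∃ N : ℕ, ∀ᶠ i in (Filter.hyperfilter ℕ : Filter ℕ), deg (k i) (x i) ≤ N * B i ∨
    ∃ (z : Fin (n + 1) → K i) (a b : Fin (n + 1)), Indep (x i) z ∧
      x i a * z b - x i b * z a ≠ 0 ∧ hln (k i) (x i) z a b ≤ N * B i

/-- TFE: transfer of exceptional conics -/
def T_TFE : Prop := ∀ (k K : ℕ → Type) [∀ i, Field (k i)] [∀ i, Field (K i)]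
  [∀ i, CharZero (K i)] [∀ i, Algebra (k i) (K i)] (L : Type) [Field L] [CharZero L]
  (k' : Type) [Field k'] [Algebra k' L] (π : (∀ i, K i) →+* L), Function.Surjective π →
  (∀ f, π f = 0 ↔ ∀ᶠ i in (Filter.hyperfilter ℕ : Filter ℕ), f i = 0) →
  ∀ (n d : ℕ) (x : ∀ i, Fin (n + 1) → K i) (c : ∀ i, Mon (n + 1) d → k i)
    (c' : Mon (n + 1) d → k'),
  (∀ M, algebraMap k' L (c' M) = π fun i => algebraMap (k i) (K i) (c i M)) →
  (∃ B C, LinearIndependent L ![fun j => π fun i => x i j, B, C] ∧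
    TwoRoots2 d (up L (frm c')) (fun j => π fun i => x i j) B C) →
  ∀ᶠ i in (Filter.hyperfilter ℕ : Filter ℕ), ∃ B C, LinearIndependent (K i) ![x i, B, C] ∧
    TwoRoots2 d (up (K i) (frm (c i))) (x i) B C

/-- TF3: transfer of conics with three points -/
def T_TF3 : Prop := ∀ (k K : ℕ → Type) [∀ i, Field (k i)] [∀ i, IsAlgClosed (k i)]
  [∀ i, CharZero (k i)] [∀ i, Field (K i)] [∀ i, Algebra (k i) (K i)]
  [∀ i, Algebra.EssFiniteType (k i) (K i)], (∀ i, Algebra.trdeg (k i) (K i) = 1) →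
  ∀ (B : ℕ → ℕ) (L : Type) [Field L] (k' : Type) [Field k'] [Algebra k' L]
    (π : (∀ i, K i) →+* L), Function.Surjective π →
  (∀ f, π f = 0 ↔ ∀ᶠ i in (Filter.hyperfilter ℕ : Filter ℕ), f i = 0) →
  (∀ f, π f ∈ Set.range (algebraMap k' L) ↔
    ∃ N : ℕ, ∀ᶠ i in (Filter.hyperfilter ℕ : Filter ℕ), h1 (k i) (f i) ≤ N * B i) →
  ∀ (n d : ℕ) (x : ∀ i, Fin (n + 1) → K i) (c : ∀ i, Mon (n + 1) d → k i)
    (c' : Mon (n + 1) d → k'),
  (∀ M, algebraMap k' L (c' M) = π fun i => algebraMap (k i) (K i) (c i M)) →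
  (∃ (s : Fin 3 → Fin (n + 1)) (P : Fin (n + 1) → Fin 3 → k') (q : Matrix (Fin 3) (Fin 3) k')
    (U V : Polynomial k') (Y : Fin 3 → Fin 3 → Polynomial k'),
    Con3 (up L (frm c')) (fun j => π fun i => x i j) s (fun i a => algebraMap k' L (P i a))
      (q.map (algebraMap k' L)) (U.map (algebraMap k' L)) (V.map (algebraMap k' L))
      (fun i a => (Y i a).map (algebraMap k' L))) →
  ∃ N : ℕ, ∀ᶠ i in (Filter.hyperfilter ℕ : Filter ℕ), ∃ (s : Fin 3 → Fin (n + 1))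
    (P : Fin (n + 1) → Fin 3 → K i) (q : Matrix (Fin 3) (Fin 3) (K i))
    (U V : Polynomial (K i)) (Y : Fin 3 → Fin 3 → Polynomial (K i)),
    Con3 (up (K i) (frm (c i))) (x i) s P q U V Y ∧ Con3H (k i) N (N * B i) P q U V Y

/-- CMP: the algebraic theorem with heights -/
def T_CMP : Prop := ∀ n e : ℕ, 1 ≤ e → ∃ C : ℕ, ∀ (k K : Type) [Field k] [IsAlgClosed k]
  [CharZero k] [Field K] [Algebra k K] [Algebra.EssFiniteType k K], Algebra.trdeg k K = 1 →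
  ∀ c : Mon (n + 1) (e + 2) → k, AlgebraicIndependent ℚ c → ∀ (x : Fin (n + 1) → K)
  (p : Fin (n + 1)), x p = 1 → eval x (up K (frm c)) ≠ 0 →
  ∀ (y : Fin 2 → Mon (n + 1) (e + 2) → K) (ν : Fin 2 → Fin (n + 1) → K),
  Fun2 (fun a => pderiv a (up K (frm c))) x y ν → (∀ b, ∑ i, ν b i * x i = 0) →
  ∀ (q : Mon (n + 1) (e + 1) → k) (a0 : Fin 3 → Fin (n + 1)),
  det3 x y (up K (frm q)) a0 ≠ 0 → ∀ B : ℕ,
  (∀ (M M' : Mon (n + 1) (e + 1)) (a : Fin 3 → Fin (n + 1)),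
    h1 k (det3 x y (frm (Pi.single M 1 + Pi.single M' 1)) a /
      det3 x y (up K (frm q)) a0) ≤ B) →
  (∀ b c', LinearIndependent K ![x, b, c'] → ¬ TwoRoots2 (e + 2) (up K (frm c)) x b c') →
  deg k x ≤ C * B ∨
  (∃ (z : Fin (n + 1) → K) (a b : Fin (n + 1)), Indep x z ∧ x a * z b - x b * z a ≠ 0 ∧
    hln k x z a b ≤ C * B) ∨
  ∃ (s : Fin 3 → Fin (n + 1)) (P : Fin (n + 1) → Fin 3 → K) (q' : Matrix (Fin 3) (Fin 3) K)
    (U V : Polynomial K) (Y : Fin 3 → Fin 3 → Polynomial K),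
    Con3 (up K (frm c)) x s P q' U V Y ∧ Con3H k C (C * B) P q' U V Y

end Pool.Agent.H17.BO
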