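import Pool.Agent.H17.BO.TargetsF
import Pool.Agent.H17.VG.AL

/-!
# MP_70ba79_ag: the alternative and the main theorem in the border case (rows ALB, MNB of the
board `bo_modules`)
-/

set_option autoImplicit false

namespace Pool.Agent.H17.BO

open MvPolynomial SC Pool.Agent.H27.LV Pool.Agent.H17.VG

lemma up_frm {k K : Type} [Field k] [Field K] [Algebra k K] {n e : ℕ}
    (q : Mon (n + 1) e → k) :
    up K (frm q) = frm (fun β => algebraMap k K (q β)) := by
  unfold up frm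
  rw [map_sum]
  refine Finset.sum_congr rfl fun f _ => ?_
  rw [map_mul, map_C]
  unfold mono
  rw [map_monomial, map_one]

lemma up_two {k K : Type} [Field k] [Field K] [Algebra k K] {n e : ℕ}
    (M M' : Mon (n + 1) e) :
    up K (frm (Pi.single M 1 + Pi.single M' 1 : Mon (n + 1) e → k)) =
      frm (Pi.single M 1 + Pi.single M' 1 : Mon (n + 1) e → K) := by
  classical
  rw [up_frm]
  congr 1
  funext β
  simp only [Pi.add_apply, map_add, Pi.single_apply]
  split_ifs <;> simp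

lemma Con3H.mono {k K : Type} [Field k] [Field K] [Algebra k K] {n N N' B : ℕ} (h : N ≤ N')
    {P : Fin (n + 1) → Fin 3 → K} {q : Matrix (Fin 3) (Fin 3) K} {U V : Polynomial K}
    {Y : Fin 3 → Fin 3 → Polynomial K} (hh : Con3H k N B P q U V Y) :
    Con3H k N' B P q U V Y :=
  ⟨hh.hp, hh.hq, hh.hU, hh.hV, hh.hY, hh.dU.trans h, hh.dV.trans h,
    fun j a => (hh.dY j a).trans h⟩

theorem pf_ALB (hSTB : T_STB) (hSM : T_SM) (hD : T_D) (hD3 : T_D3) (hG : T_G) (hSO : T_SO)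
    (hCMP : T_CMP) : T_ALB := by
  intro n e δ hδ hn he
  obtain ⟨C, hC⟩ := hCMP n (3 * δ) (by omega)
  refine ⟨C + 1, ?_⟩
  subst hn he
  intro k _ _ _ c hc K _ _ _ htr D hD0 x p hp hx hF hexc S hS
  obtain ⟨R, hR⟩ := hG k (2 * δ + 1) (3 * δ + 1) c (by omega) hc
  obtain ⟨D', hD', hsys, hrat⟩ := hR K htr D hD0
  have hcK : CharZero K := charZero_of_injective_algebraMap (algebraMap k K).injective
  have hxD : Indep x fun i => D (x i) := by
    refine indep_D D x p hp ?_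
    obtain ⟨j, hj⟩ := hx
    exact ⟨j, fun h0 => hj (ker k K htr D hD0 _ h0)⟩
  have hxD' : Indep x fun i => D' (x i) := by
    have : (fun i => D' (x i)) = fun i => D (x i) := funext fun i => hD' _
    rw [this]
    exact hxD
  have hsm := hSO k (2 * δ + 1) (3 * δ + 1) c hc
  have hC0 : (0 : ℤ) ≤ C := Int.natCast_nonneg C
  rcases hSTB R k K (2 * δ + 1) (3 * δ + 1) δ (up K (frm c)) D' x hδ rfl rfl hsys hxD' hF
    hexc.line with ⟨Q, hQ⟩ | ⟨Q, q, hQ, hq⟩
  · have hle : Module.finrank K (Ut R (up K (frm c)) x (PQ x fun j => up K (frm (Q j)))) ≤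
        2 * δ + 1 + 1 := by
      have := Submodule.finrank_le (Ut R (up K (frm c)) x (PQ x fun j => up K (frm (Q j))))
      simpa using this
    have hd := hD R k K htr (2 * δ + 1) (3 * δ + 1) (δ - 1) (frm c) (frm_homog c) hsm D D' hD0
      hD' hsys hrat x p hp hxD hF S hS Q
    rcases Nat.lt_or_ge (2 * δ + 1) (Module.finrank K (Ut R (up K (frm c)) x
      (PQ x fun j => up K (frm (Q j))))) with h | h
    · have h1 := hd.1 (by omega)
      have h2 : (((3 * δ + 1 : ℕ) : ℤ) - (2 * δ + 1 : ℕ) - (δ - 1 : ℕ)) = 1 := by omega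
      rw [h2, one_mul] at h1
      have h3 : (0 : ℤ) ≤ deg k x := Int.natCast_nonneg _
      refine ⟨h3.trans h1, Or.inl ?_⟩
      push_cast
      nlinarith
    · have h0 : Module.finrank K (Ut R (up K (frm c)) x (PQ x fun j => up K (frm (Q j)))) =
          2 * δ + 1 := by omega
      obtain ⟨Q', ξ, τ, h1, h2, h3⟩ := hSM R k K (2 * δ + 1) (3 * δ + 1) (δ - 1) (up K (frm c))
        D' x hsys hF Q h0
      obtain ⟨y, a, b, h4, h5, h6⟩ := hd.2 h0 Q' ξ τ h1 h2 h3
      have h7 : (((3 * δ + 1 : ℕ) : ℤ) - (2 * δ + 1 : ℕ) - ((δ - 1 : ℕ) + 1)) = 0 := by omega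
      rw [h7, zero_mul, add_zero] at h6
      have h8 : (0 : ℤ) ≤ hln k x y a b := Int.natCast_nonneg _
      refine ⟨h8.trans h6, Or.inr (Or.inl ⟨y, a, b, h4, h5, ?_⟩)⟩
      push_cast
      nlinarith [h8.trans h6]
  · obtain ⟨y, ν, hfun, hνx, a0, ha0, hdet⟩ := hD3 R k K htr (2 * δ + 1) (3 * δ + 1) (δ - 1)
      (by omega) (frm c) (frm_homog c) hsm D D' hD0 hD' hsys hrat x p hp hxD hF S hS Q q hQ hq
    have h0 : (0 : ℤ) ≤ canDeg D + S.card := by
      have h1 := hdet Unit (fun _ => q) (fun _ => a0)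
      exact (Int.natCast_nonneg _).trans h1
    refine ⟨h0, ?_⟩
    obtain ⟨B, hB⟩ := Int.eq_ofNat_of_zero_le h0
    have hfin := hC k K htr c hc x p hp hF y ν hfun hνx q a0 ha0 B
      (fun M M' a => by
        have h1 := hdet (Fin 1) (fun _ => Pi.single M 1 + Pi.single M' 1) (fun _ => a)
        rw [up_two] at h1
        rw [hB] at h1
        exact_mod_cast h1)
      hexc.conic
    rcases hfin with h | ⟨z, a, b, h1, h2, h3⟩ | ⟨s, P, q', U, V, Y, h1, h2⟩
    · left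
      rw [hB]
      have h1 : ((deg k x : ℕ) : ℤ) ≤ C * B := by exact_mod_cast h
      push_cast
      nlinarith [Int.natCast_nonneg B]
    · right
      left
      refine ⟨z, a, b, h1, h2, ?_⟩
      rw [hB]
      have h4 : ((hln k x z a b : ℕ) : ℤ) ≤ C * B := by exact_mod_cast h3
      push_cast
      nlinarith [Int.natCast_nonneg B]
    · right
      right
      refine ⟨s, P, q', U, V, Y, C * B, h1, h2.mono (by omega), ?_⟩
      rw [hB]
      push_cast
      nlinarith [Int.natCast_nonneg B]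

theorem pf_MNB (hAL : T_ALB) (hE : T_E) (hMC : T_MC3) : T_MNB := by
  intro n e δ hδ hn he
  obtain ⟨C, hC⟩ := hAL n e δ hδ hn he
  obtain ⟨C1, hC1⟩ := hE n (e + 1)
  obtain ⟨C2, hC2⟩ := hMC n (e + 1) C (by omega)
  refine ⟨C + C1 * (1 + C) + C2 * (1 + C), ?_⟩
  intro k _ _ _ c hc K _ _ _ htr D hD x p hp hx hF hexc S hS
  obtain ⟨h0, h⟩ := hC k c hc K htr D hD x p hp hx hF hexc S hS
  have i0 : (0 : ℤ) ≤ C := Int.natCast_nonneg C
  have i1 : (0 : ℤ) ≤ C1 := Int.natCast_nonneg C1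
  have i2 : (0 : ℤ) ≤ C2 := Int.natCast_nonneg C2
  obtain ⟨χ, hχ⟩ : ∃ χ : ℤ, χ = canDeg D + S.card := ⟨_, rfl⟩
  rw [← hχ] at h0 h ⊢
  have j0 : 0 ≤ (C : ℤ) * χ := mul_nonneg i0 h0
  have j1 : 0 ≤ (C1 : ℤ) * (1 + C) * χ := mul_nonneg (mul_nonneg i1 (by linarith)) h0
  have j2 : 0 ≤ (C2 : ℤ) * (1 + C) * χ := mul_nonneg (mul_nonneg i2 (by linarith)) h0
  have hsum : (((C + C1 * (1 + C) + C2 * (1 + C) : ℕ) : ℤ)) * χ =
      C * χ + C1 * (1 + C) * χ + C2 * (1 + C) * χ := by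
    push_cast
    ring
  rw [hsum]
  rcases h with h | ⟨y, a, b, h1, h2, h3⟩ | ⟨s, P, q, U, V, Y, B, h1, h2, h3⟩
  · linarith
  · have h6 := hC1 k K htr D hD (frm c) (frm_homog c) x y p a b hp h1 h2 hF (hexc.line y h1) S hS
      (by rw [← hχ]; exact h0)
    rw [← hχ] at h6
    have h7 : (C1 : ℤ) * (χ + hln k x y a b) ≤ C1 * (χ + C * χ) :=
      mul_le_mul_of_nonneg_left (by linarith) i1
    have h8 : (C1 : ℤ) * (χ + C * χ) = C1 * (1 + C) * χ := by ring
    linarith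
  · have h6 := hC2 k K htr D hD (frm c) (frm_homog c) x p hp hF s P q U V Y B h1 h2 S hS
      (by rw [← hχ]; exact h0)
    rw [← hχ] at h6
    have h7 : (C2 : ℤ) * (χ + B) ≤ C2 * (χ + C * χ) :=
      mul_le_mul_of_nonneg_left (by linarith) i2
    have h8 : (C2 : ℤ) * (χ + C * χ) = C2 * (1 + C) * χ := by ring
    linarith

end Pool.Agent.H17.BO
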