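import Pool.Agent.H17.BO.TargetsD

/-!
# MP_70ba79_ag, board `bo_modules`: row CMP (the algebraic theorem with heights)
-/

set_option autoImplicit false

namespace Pool.Agent.H17.BO

open MvPolynomial SC Pool.Agent.H27.LV Pool.Agent.H17.VG

section Ring

variable {R S : Type} [CommRing R] [CommRing S] {n d : ℕ}

/-- the form with the coefficients `t`, over a ring -/
noncomputable def frmR (t : Mon (n + 1) d → R) : MvPolynomial (Fin (n + 1)) R :=
  ∑ f, C (t f) * monomial (fs f.1) 1

/-- functionals over a ring -/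
noncomputable def fnlR (y : Mon (n + 1) d → R) (G : MvPolynomial (Fin (n + 1)) R) : R :=
  ∑ M, y M * coeff (fs M.1) G

/-- determinants over a ring -/
noncomputable def det3R (x : Fin (n + 1) → R) (y : Fin 2 → Mon (n + 1) d → R)
    (Q : MvPolynomial (Fin (n + 1)) R) (a : Fin 3 → Fin (n + 1)) : R :=
  (Matrix.of fun t r : Fin 3 =>
    (![x (a t), fnlR (y 0) (X (a t) * Q), fnlR (y 1) (X (a t) * Q)] : Fin 3 → R) r).det

lemma map_frmR (φ : R →+* S) (t : Mon (n + 1) d → R) :
    MvPolynomial.map φ (frmR t) = frmR fun M => φ (t M) := by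
  unfold frmR
  rw [map_sum]
  refine Finset.sum_congr rfl fun M _ => ?_
  rw [map_mul, map_C, map_monomial, map_one]

lemma map_fnlR (φ : R →+* S) (y : Mon (n + 1) d → R) (G : MvPolynomial (Fin (n + 1)) R) :
    φ (fnlR y G) = fnlR (fun M => φ (y M)) (MvPolynomial.map φ G) := by
  unfold fnlR
  rw [map_sum]
  refine Finset.sum_congr rfl fun M _ => ?_
  rw [map_mul, coeff_map]

lemma map_det3R (φ : R →+* S) (x : Fin (n + 1) → R) (y : Fin 2 → Mon (n + 1) d → R)
    (Q : MvPolynomial (Fin (n + 1)) R) (a : Fin 3 → Fin (n + 1)) :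
    φ (det3R x y Q a) = det3R (fun j => φ (x j)) (fun b M => φ (y b M))
      (MvPolynomial.map φ Q) a := by
  unfold det3R
  rw [RingHom.map_det]
  congr 1
  ext t r
  fin_cases r
  · simp
  · simp [map_fnlR]
  · simp [map_fnlR]

lemma map_evalR (φ : R →+* S) (x : Fin (n + 1) → R) (G : MvPolynomial (Fin (n + 1)) R) :
    φ (eval x G) = eval (fun j => φ (x j)) (MvPolynomial.map φ G) := by
  rw [eval_map]
  unfold eval
  rw [coe_eval₂Hom, eval₂_comp_left]
  rfl

lemma fin2_eq {K : Type} {m : ℕ} (ν : Fin 2 → Fin m → K) : ν = ![ν 0, ν 1] := by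
  funext b
  fin_cases b <;> rfl

lemma minor_of_ind2 {K : Type} [Field K] {m : ℕ} (ν : Fin 2 → Fin m → K)
    (h : LinearIndependent K ν) : ∃ a b, ν 0 a * ν 1 b - ν 0 b * ν 1 a ≠ 0 := by
  by_contra hall
  push Not at hall
  obtain ⟨a, ha⟩ : ∃ a, ν 0 a ≠ 0 := by
    by_contra hc0
    push Not at hc0
    exact h.ne_zero 0 (funext hc0)
  rw [fin2_eq ν, LinearIndependent.pair_iff] at h
  have h1 := h (ν 1 a) (-ν 0 a) (by
    funext b
    have h4 := hall a b
    simp only [Pi.add_apply, Pi.smul_apply, smul_eq_mul, Pi.zero_apply]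
    linear_combination -h4)
  exact ha (neg_eq_zero.1 h1.2)

lemma ind2_of_minor {K : Type} [Field K] {m : ℕ} (ν : Fin 2 → Fin m → K) (a b : Fin m)
    (hab : ν 0 a * ν 1 b - ν 0 b * ν 1 a ≠ 0) : LinearIndependent K ν := by
  rw [fin2_eq ν, LinearIndependent.pair_iff]
  intro s t hst
  have ha := congrFun hst a
  have hb := congrFun hst b
  simp only [Pi.add_apply, Pi.smul_apply, smul_eq_mul, Pi.zero_apply] at ha hb
  constructor
  · have : s * (ν 0 a * ν 1 b - ν 0 b * ν 1 a) = 0 := by
      linear_combination ν 1 b * ha - ν 1 a * hb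
    exact (mul_eq_zero.1 this).resolve_right hab
  · have : t * (ν 0 a * ν 1 b - ν 0 b * ν 1 a) = 0 := by
      linear_combination ν 0 a * hb - ν 0 b * ha
    exact (mul_eq_zero.1 this).resolve_right hab

end Ring

/-- a counterexample with the constant `C` -/
structure CEx (n e C : ℕ) where
  k : Type
  K : Type
  [ik : Field k]
  [iac : IsAlgClosed k]
  [icz : CharZero k]
  [iK : Field K]
  [ia : Algebra k K]
  [iess : Algebra.EssFiniteType k K]
  htr : Algebra.trdeg k K = 1
  c : Mon (n + 1) (e + 2) → k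
  hc : AlgebraicIndependent ℚ c
  x : Fin (n + 1) → K
  p : Fin (n + 1)
  hp : x p = 1
  hF : eval x (up K (frm c)) ≠ 0
  y : Fin 2 → Mon (n + 1) (e + 2) → K
  ν : Fin 2 → Fin (n + 1) → K
  hfun : Fun2 (fun a => pderiv a (up K (frm c))) x y ν
  hν : ∀ b, ∑ i, ν b i * x i = 0
  q : Mon (n + 1) (e + 1) → k
  a0 : Fin 3 → Fin (n + 1)
  ha0 : det3 x y (up K (frm q)) a0 ≠ 0
  B : ℕ
  hB : ∀ (M M' : Mon (n + 1) (e + 1)) (a : Fin 3 → Fin (n + 1)),
    h1 k (det3 x y (frm (Pi.single M 1 + Pi.single M' 1)) a / det3 x y (up K (frm q)) a0) ≤ B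
  hnc : ∀ b c', LinearIndependent K ![x, b, c'] → ¬ TwoRoots2 (e + 2) (up K (frm c)) x b c'
  hnot : ¬ (deg k x ≤ C * B ∨
    (∃ (z : Fin (n + 1) → K) (a b : Fin (n + 1)), Indep x z ∧ x a * z b - x b * z a ≠ 0 ∧
      hln k x z a b ≤ C * B) ∨
    ∃ (s : Fin 3 → Fin (n + 1)) (P : Fin (n + 1) → Fin 3 → K) (q' : Matrix (Fin 3) (Fin 3) K)
      (U V : Polynomial K) (Y : Fin 3 → Fin 3 → Polynomial K),
      Con3 (up K (frm c)) x s P q' U V Y ∧ Con3H k C (C * B) P q' U V Y)

attribute [instance] CEx.ik CEx.iac CEx.icz CEx.iK CEx.ia CEx.iess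

lemma up_frmR {k K : Type} [Field k] [Field K] [Algebra k K] {n d : ℕ}
    (t : Mon (n + 1) d → k) : up K (frm t) = frmR fun M => algebraMap k K (t M) := by
  unfold up frm frmR
  rw [map_sum]
  refine Finset.sum_congr rfl fun f _ => ?_
  rw [map_mul, map_C]
  unfold mono
  rw [map_monomial, map_one]

lemma Con3H.mono' {k K : Type} [Field k] [Field K] [Algebra k K] {n N N' B B' : ℕ} (h : N ≤ N')
    (hB : B ≤ B')
    {P : Fin (n + 1) → Fin 3 → K} {q : Matrix (Fin 3) (Fin 3) K} {U V : Polynomial K}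
    {Y : Fin 3 → Fin 3 → Polynomial K} (hh : Con3H k N B P q U V Y) :
    Con3H k N' B' P q U V Y :=
  ⟨fun j a => (hh.hp j a).trans hB, fun a b => (hh.hq a b).trans hB, hh.hU.trans hB,
    hh.hV.trans hB, fun j a => (hh.hY j a).trans hB, hh.dU.trans h, hh.dV.trans h,
    fun j a => (hh.dY j a).trans h⟩

theorem pf_CMP (hHTA : T_HTA) (hULT : T_ULT) (hKLV : T_KLV) (hTFL : T_TFL) (hTFE : T_TFE)
    (hTF3 : T_TF3) : T_CMP := by
  classical
  intro n e he
  by_contra hcon
  have hne : ∀ C, Nonempty (CEx n e C) := by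
    intro C
    by_contra hemp
    apply hcon
    refine ⟨C, ?_⟩
    intro k K _ _ _ _ _ _ htr c hc x p hp hF y ν hfun hν q a0 ha0 B hB hnc
    by_contra hnot
    refine hemp ⟨?_⟩
    exact
      { k := k, K := K, htr := htr, c := c, hc := hc, x := x, p := p, hp := hp, hF := hF, y := y,
        ν := ν, hfun := hfun, hν := hν, q := q, a0 := a0, ha0 := ha0, B := B,
        hB := hB, hnc := hnc, hnot := hnot }
  obtain ⟨X⟩ : Nonempty (∀ C, CEx n e C) := ⟨fun C => (hne C).some⟩
  have hcz : ∀ i, CharZero (X i).K := fun i =>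
    charZero_of_injective_algebraMap (algebraMap (X i).k (X i).K).injective
  obtain ⟨L, iL, iLz, k', ik', ik'z, ia', π, hsurj, hker, hrange, hac⟩ :=
    hULT (fun i => (X i).k) (fun i => (X i).K) (fun i => (X i).htr) (fun i => (X i).B)
  -- constants
  have hconst : ∀ f : ∀ i, (X i).k, ∃ r : k', algebraMap k' L r =
      π fun i => algebraMap (X i).k (X i).K (f i) := by
    intro f
    obtain ⟨r, hr⟩ := (hrange fun i => algebraMap (X i).k (X i).K (f i)).2
      ⟨0, Filter.Eventually.of_forall fun i => by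
        have := (hHTA (X i).k (X i).K (X i).htr 0 0).2.2.2.1 (f i)
        rw [this]; exact Nat.zero_le _⟩
    exact ⟨r, hr⟩
  choose c' hc' using fun M => hconst fun i => (X i).c M
  choose q' hq' using fun M => hconst fun i => (X i).q M
  -- algebraic independence
  have hcind : AlgebraicIndependent ℚ c' := by
    rw [algebraicIndependent_iff]
    intro P hP
    set g : (∀ i, (X i).k) →+* L := π.comp
      (RingHom.pi fun i => (algebraMap (X i).k (X i).K).comp (Pi.evalRingHom _ i)) with hg
    have h1 : g.toRatAlgHom (aeval (fun M => (fun i => (X i).c M : ∀ i, (X i).k)) P) = 0 := by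
      rw [comp_aeval_apply]
      have h2 : (fun M => g.toRatAlgHom (fun i => (X i).c M : ∀ i, (X i).k)) =
          fun M => (algebraMap k' L).toRatAlgHom (c' M) := by
        funext M
        exact (hc' M).symm
      rw [h2, ← comp_aeval_apply, hP, map_zero]
    have h3 : π (fun i => algebraMap (X i).k (X i).K
        ((aeval (fun M => (fun i => (X i).c M : ∀ i, (X i).k)) P : ∀ i, (X i).k) i)) = 0 := h1
    rw [hker] at h3
    obtain ⟨i, hi⟩ := h3.exists
    have h4 : (aeval (fun M => (fun i => (X i).c M : ∀ i, (X i).k)) P : ∀ i, (X i).k) i = 0 :=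
      (map_eq_zero _).1 hi
    have h5 : aeval (fun M => (X i).c M) P = 0 := by
      have h6 := comp_aeval_apply (Pi.evalAlgHom ℚ (fun i => (X i).k) i)
        (f := fun M => (fun i => (X i).c M : ∀ i, (X i).k)) P
      rw [← h4]
      exact h6.symm
    exact (algebraicIndependent_iff.1 (X i).hc) P h5
  -- the data over `L`
  set x : Fin (n + 1) → L := fun j => π fun i => (X i).x j with hx
  set y : Fin 2 → Mon (n + 1) (e + 2) → L := fun b M => π fun i => (X i).y b M with hy
  set ν : Fin 2 → Fin (n + 1) → L := fun b a => π fun i => (X i).ν b a with hν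
  -- transfer of determinants
  have hdet : ∀ (Q : ∀ i, MvPolynomial (Fin (n + 1)) (X i).K)
      (t : Mon (n + 1) (e + 1) → ∀ i, (X i).K) (hQ : ∀ i, Q i = frmR fun M => t M i)
      (a : Fin 3 → Fin (n + 1)),
      det3 x y (frmR fun M => π (t M)) a = π fun i => det3 (X i).x (X i).y (Q i) a := by
    intro Q t hQ a
    have h1 := map_det3R π (fun j => (fun i => (X i).x j : ∀ i, (X i).K))
      (fun b M => (fun i => (X i).y b M : ∀ i, (X i).K)) (frmR t) a
    have h2 : det3R (fun j => (fun i => (X i).x j : ∀ i, (X i).K))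
        (fun b M => (fun i => (X i).y b M : ∀ i, (X i).K)) (frmR t) a =
        fun i => det3 (X i).x (X i).y (Q i) a := by
      funext i
      have h3 := map_det3R (Pi.evalRingHom (fun i => (X i).K) i)
        (fun j => (fun i => (X i).x j : ∀ i, (X i).K))
        (fun b M => (fun i => (X i).y b M : ∀ i, (X i).K)) (frmR t) a
      rw [map_frmR] at h3
      rw [hQ]
      exact h3
    rw [h2, map_frmR] at h1
    exact h1.symm
  have hFL : up L (frm c') = MvPolynomial.map π
      (frmR fun M => (fun i => algebraMap (X i).k (X i).K ((X i).c M) : ∀ i, (X i).K)) := by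
    rw [up_frmR, map_frmR]
    congr 1
    funext M
    exact hc' M
  have hFi : ∀ i, up (X i).K (frm (X i).c) = MvPolynomial.map (Pi.evalRingHom (fun i => (X i).K) i)
      (frmR fun M => (fun i => algebraMap (X i).k (X i).K ((X i).c M) : ∀ i, (X i).K)) := by
    intro i
    rw [up_frmR, map_frmR]
    rfl
  have hfun : Fun2 (fun a => pderiv a (up L (frm c'))) x y ν := by
    constructor
    · have hmin : ∃ a b, ν 0 a * ν 1 b - ν 0 b * ν 1 a ≠ 0 := by
        by_contra hall
        push Not at hall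
        have h1 : ∀ a b, ∀ᶠ i in (Filter.hyperfilter ℕ : Filter ℕ),
            (X i).ν 0 a * (X i).ν 1 b - (X i).ν 0 b * (X i).ν 1 a = 0 := by
          intro a b
          have h2 := hall a b
          have h3 : π (fun i => (X i).ν 0 a * (X i).ν 1 b - (X i).ν 0 b * (X i).ν 1 a) = 0 := by
            rw [← h2]
            have h4 : (fun i => (X i).ν 0 a * (X i).ν 1 b - (X i).ν 0 b * (X i).ν 1 a :
                ∀ i, (X i).K) = (fun i => (X i).ν 0 a) * (fun i => (X i).ν 1 b) -
                (fun i => (X i).ν 0 b) * (fun i => (X i).ν 1 a) := rfl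
            rw [h4, map_sub, map_mul, map_mul]
          exact (hker _).1 h3
        have h2 := (Filter.eventually_all.2 fun a => Filter.eventually_all.2 fun b => h1 a b)
        obtain ⟨i, hi⟩ := h2.exists
        obtain ⟨a, b, hab⟩ := minor_of_ind2 _ (X i).hfun.ind
        exact hab (hi a b)
      obtain ⟨a, b, hab⟩ := hmin
      exact ind2_of_minor ν a b hab
    · intro b j a
      have h1 : (fun i => fnl ((X i).y b) (MvPolynomial.X j *
          pderiv a (up (X i).K (frm (X i).c))) : ∀ i, (X i).K) =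
          fun i => -((X i).x j * (X i).ν b a) := funext fun i => (X i).hfun.grad b j a
      have h2 := map_fnlR π (fun M => (fun i => (X i).y b M : ∀ i, (X i).K))
        (MvPolynomial.X j * pderiv a
          (frmR fun M => (fun i => algebraMap (X i).k (X i).K ((X i).c M) : ∀ i, (X i).K)))
      have h3 : fnlR (fun M => (fun i => (X i).y b M : ∀ i, (X i).K))
        (MvPolynomial.X j * pderiv a
          (frmR fun M => (fun i => algebraMap (X i).k (X i).K ((X i).c M) : ∀ i, (X i).K))) =
          fun i => -((X i).x j * (X i).ν b a) := by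
        rw [← h1]
        funext i
        have h4 := map_fnlR (Pi.evalRingHom (fun i => (X i).K) i)
          (fun M => (fun i => (X i).y b M : ∀ i, (X i).K))
          (MvPolynomial.X j * pderiv a
            (frmR fun M => (fun i => algebraMap (X i).k (X i).K ((X i).c M) : ∀ i, (X i).K)))
        rw [map_mul, map_X, ← pderiv_map, ← hFi] at h4
        exact h4
      rw [h3, map_mul, map_X, ← pderiv_map, ← hFL] at h2
      have h5 : (fun i => -((X i).x j * (X i).ν b a) : ∀ i, (X i).K) =
        -((fun i => (X i).x j) * (fun i => (X i).ν b a)) := rfl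
      rw [h5, map_neg, map_mul] at h2
      exact h2.symm
  have hνx : ∀ b, ∑ i, ν b i * x i = 0 := by
    intro b
    have h1 : ∑ j, (fun i => (X i).ν b j : ∀ i, (X i).K) * (fun i => (X i).x j : ∀ i, (X i).K) =
        0 := by
      funext i
      rw [Finset.sum_apply]
      exact (X i).hν b
    have h2 := congrArg π h1
    rw [map_sum, map_zero] at h2
    rw [← h2]
    refine Finset.sum_congr rfl fun j _ => ?_
    rw [map_mul]
  have hF : eval x (up L (frm c')) ≠ 0 := by
    intro h0
    have h1 := map_evalR π (fun j => (fun i => (X i).x j : ∀ i, (X i).K))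
      (frmR fun M => (fun i => algebraMap (X i).k (X i).K ((X i).c M) : ∀ i, (X i).K))
    rw [← hFL] at h1
    have h2 : eval (fun j => (fun i => (X i).x j : ∀ i, (X i).K))
      (frmR fun M => (fun i => algebraMap (X i).k (X i).K ((X i).c M) : ∀ i, (X i).K)) =
      fun i => eval (X i).x (up (X i).K (frm (X i).c)) := by
      funext i
      have h4 := map_evalR (Pi.evalRingHom (fun i => (X i).K) i)
        (fun j => (fun i => (X i).x j : ∀ i, (X i).K))
        (frmR fun M => (fun i => algebraMap (X i).k (X i).K ((X i).c M) : ∀ i, (X i).K))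
      rw [← hFi] at h4
      exact h4
    rw [h2] at h1
    have h5 : π (fun i => eval (X i).x (up (X i).K (frm (X i).c))) = 0 := h1.trans h0
    obtain ⟨i, hi⟩ := ((hker _).1 h5).exists
    exact (X i).hF hi
  -- kappa
  set κf : ∀ i, (X i).K := fun i => det3 (X i).x (X i).y (up (X i).K (frm (X i).q)) (X i).a0
    with hκf
  have hmon : ∀ (M M' : Mon (n + 1) (e + 1)) (a : Fin 3 → Fin (n + 1)), ∃ r : k',
      det3 x y (frm (Pi.single M 1 + Pi.single M' 1)) a = π κf * algebraMap k' L r := by
    intro M M' a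
    obtain ⟨r, hr⟩ := (hrange fun i => det3 (X i).x (X i).y
      (frm (Pi.single M 1 + Pi.single M' 1)) a / κf i).2
      ⟨1, Filter.Eventually.of_forall fun i => by rw [one_mul]; exact (X i).hB M M' a⟩
    refine ⟨r, ?_⟩
    rw [hr, ← map_mul]
    have h1 := hdet (fun i => frm (Pi.single M 1 + Pi.single M' 1))
      (Pi.single M 1 + Pi.single M' 1) (fun i => by
        unfold frm frmR mono
        refine Finset.sum_congr rfl fun N _ => ?_
        congr 2
        simp only [Pi.add_apply, Pi.single_apply]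
        split_ifs <;> simp) a
    have h2 : (frmR fun N => π ((Pi.single M 1 + Pi.single M' 1 :
        Mon (n + 1) (e + 1) → ∀ i, (X i).K) N)) = frm (Pi.single M 1 + Pi.single M' 1) := by
      unfold frm frmR mono
      refine Finset.sum_congr rfl fun N _ => ?_
      congr 2
      simp only [Pi.add_apply, Pi.single_apply, map_add]
      split_ifs <;> simp
    rw [h2] at h1
    rw [h1]
    congr 1
    funext i
    have h3 : κf i ≠ 0 := (X i).ha0
    simp only [Pi.mul_apply]
    field_simp
  have hq0 : ∃ (Q : Mon (n + 1) (e + 1) → k') (a : Fin 3 → Fin (n + 1)),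
      det3 x y (up L (frm Q)) a ≠ 0 := by
    refine ⟨q', ?_⟩
    by_contra hall
    push Not at hall
    have h1 : ∀ a : Fin 3 → Fin (n + 1), ∀ᶠ i in (Filter.hyperfilter ℕ : Filter ℕ),
        det3 (X i).x (X i).y (up (X i).K (frm (X i).q)) a = 0 := by
      intro a
      have h2 := hdet (fun i => up (X i).K (frm (X i).q))
        (fun M => (fun i => algebraMap (X i).k (X i).K ((X i).q M))) (fun i => up_frmR _) a
      have h3 : up L (frm q') = frmR fun M =>
          π ((fun i => algebraMap (X i).k (X i).K ((X i).q M) : ∀ i, (X i).K)) := by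
        rw [up_frmR]
        congr 1
        funext M
        exact hq' M
      rw [← h3, hall a] at h2
      exact (hker _).1 h2.symm
    obtain ⟨i, hi⟩ := (Filter.eventually_all.2 h1).exists
    exact (X i).ha0 (hi _)
  have hge : ∀ N : ℕ, ∀ᶠ i in (Filter.hyperfilter ℕ : Filter ℕ), N ≤ i := fun N =>
    (Filter.eventually_ge_atTop N).filter_mono Nat.hyperfilter_le_atTop
  rcases hKLV k' L hac n e he c' hcind x y ν hfun hνx hF (π κf) hmon hq0 with h | h | h
  · obtain ⟨N, hN⟩ := hTFL (fun i => (X i).k) (fun i => (X i).K) (fun i => (X i).htr)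
      (fun i => (X i).B) L k' π hsurj hker hrange n (fun i => (X i).x) (fun i => (X i).p)
      (fun i => (X i).hp) h
    obtain ⟨i, hi, hi2⟩ := (hN.and (hge N)).exists
    apply (X i).hnot
    have h4 : N * (X i).B ≤ i * (X i).B := Nat.mul_le_mul_right _ hi2
    rcases hi with h3 | ⟨z, a, b, h1, h2, h3⟩
    · exact Or.inl (h3.trans h4)
    · exact Or.inr (Or.inl ⟨z, a, b, h1, h2, h3.trans h4⟩)
  · have h1 := hTFE (fun i => (X i).k) (fun i => (X i).K) L k' π hsurj hker n (e + 2)
      (fun i => (X i).x) (fun i => (X i).c) c' hc' h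
    obtain ⟨i, b, c'', h2, h3⟩ := h1.exists
    exact (X i).hnc b c'' h2 h3
  · obtain ⟨N, hN⟩ := hTF3 (fun i => (X i).k) (fun i => (X i).K) (fun i => (X i).htr)
      (fun i => (X i).B) L k' π hsurj hker hrange n (e + 2) (fun i => (X i).x)
      (fun i => (X i).c) c' hc' h
    obtain ⟨i, ⟨s, P, q2, U, V, Y, h1, h2⟩, hi2⟩ := (hN.and (hge N)).exists
    exact (X i).hnot (Or.inr (Or.inr ⟨s, P, q2, U, V, Y, h1,
      h2.mono' hi2 (Nat.mul_le_mul_right _ hi2)⟩))

end Pool.Agent.H17.BO
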