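import Pool.Agent.H17.BO.Defs

/-!
# MP_70ba79_ag: targets of the board `bo_modules`, part X (exceptional conics)

Compare `Pool/Agent/H17/VG/TargetsX.lean` and `Pool/Agent/H17/CI/TargetsX.lean`.
-/

set_option autoImplicit false

namespace Pool.Agent.H17.BO

open MvPolynomial SC Pool.Agent.H27.LV Pool.Agent.H17.VG

/-- NFC: normal form of a conic through `x`, `x p = 1` -/
def T_NFC : Prop := ∀ (K : Type) [Field K] [CharZero K] (n d : ℕ)
  (F : MvPolynomial (Fin (n + 1)) K) (x b c : Fin (n + 1) → K) (p : Fin (n + 1)),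
  F.IsHomogeneous d → x p = 1 → LinearIndependent K ![x, b, c] → TwoRoots2 d F x b c →
  ∃ (b' c' : Fin (n + 1) → K) (q : Fin (n + 1)), q ≠ p ∧ b' p = 0 ∧ b' q = 1 ∧
    LinearIndependent K ![x, b', c'] ∧ TwoRoots2 d F x b' c'

/-- RS2: restriction to a conic is onto -/
def T_RS2 : Prop := ∀ (K : Type) [Field K] (n d : ℕ) (x b c : Fin (n + 1) → K),
  LinearIndependent K ![x, b, c] → ∀ P : Polynomial K, P.natDegree ≤ 2 * d →
  ∃ G : MvPolynomial (Fin (n + 1)) K, G.IsHomogeneous d ∧ res2 x b c G = P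

/-- DR2: a derivation applied to the restriction to a conic -/
def T_DR2 : Prop := ∀ (R K : Type) [Field R] [Field K] [Algebra R K] (n : ℕ)
  (θ : Derivation R K K) (x b c : Fin (n + 1) → K) (G : MvPolynomial (Fin (n + 1)) K),
  pD θ (res2 x b c G) = res2 x b c (cD θ G) + res2 x b c (dir (fun i => θ (x i)) G) +
    Polynomial.X * res2 x b c (dir (fun i => θ (b i)) G) +
    Polynomial.X ^ 2 * res2 x b c (dir (fun i => θ (c i)) G)

/-- XMC: no exceptional conics through general points: dimension count. With a derivation `θ`,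
`θ c = g`, `θ x = 0`: every polynomial of degree at most `2 d` is a combination of
`(n - 1) + (n + 1) + 3` polynomials. -/
def T_XMC : Prop := ∀ (L : Type) [Field L] [CharZero L] (n d : ℕ), n + 2 ≤ d →
  ∀ p q : Fin (n + 1), q ≠ p → ∀ (c : Mon (n + 1) d → L) (x b c' : Fin (n + 1) → L) (α β : L)
    (i j : ℕ), i + j = 2 * d → x p = 1 → b p = 0 → b q = 1 →
  AlgebraicIndependent ℚ
    (Sum.elim c (fun l : {l : Fin (n + 1) // l ≠ p} => x l.1)) →
  LinearIndependent L ![x, b, c'] →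
  res2 x b c' (frm c) ≠ Polynomial.C (eval x (frm c)) *
    (1 + Polynomial.C α * Polynomial.X) ^ i * (1 + Polynomial.C β * Polynomial.X) ^ j

/-- the point with the coordinates `1` at `p` and `x'` at the other places -/
def pt {L : Type} [Field L] {n : ℕ} (p : Fin (n + 1)) (x' : {l : Fin (n + 1) // l ≠ p} → L) :
    Fin (n + 1) → L := fun l => if h : l = p then 1 else x' ⟨l, h⟩

/-- XPC: the exceptional conics are given by polynomial equations -/
def T_XPC : Prop := ∀ (n d i j : ℕ) (p q r : Fin (n + 1)),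
  ∃ I : Set (MvPolynomial ((Mon (n + 1) d ⊕ {l : Fin (n + 1) // l ≠ p}) ⊕
    (Fin (n + 1) ⊕ Fin (n + 1) ⊕ Fin 3)) ℚ), ∀ (L : Type) [Field L] [CharZero L]
    (c : Mon (n + 1) d → L) (x' : {l : Fin (n + 1) // l ≠ p} → L)
    (b c' : Fin (n + 1) → L) (z : Fin 3 → L),
    (∀ f ∈ I, aeval (Sum.elim (Sum.elim c x') (Sum.elim b (Sum.elim c' z))) f = 0) ↔
      b p = 0 ∧ b q = 1 ∧
      (Matrix.of fun u v : Fin 3 => (![pt p x', b, c'] : Fin 3 → Fin (n + 1) → L) u
        ((![p, q, r] : Fin 3 → Fin (n + 1)) v)).det * z 2 = 1 ∧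
      res2 (pt p x') b c' (frm c) = Polynomial.C (eval (pt p x') (frm c)) *
        (1 + Polynomial.C (z 0) * Polynomial.X) ^ i *
        (1 + Polynomial.C (z 1) * Polynomial.X) ^ j

/-- UEC: universal equation -/
def T_UEC : Prop := ∀ (n d i j : ℕ) (p q : Fin (n + 1)), q ≠ p → i + j = 2 * d → n + 2 ≤ d →
  ∃ Ψ : MvPolynomial (Mon (n + 1) d ⊕ {l : Fin (n + 1) // l ≠ p}) ℚ, Ψ ≠ 0 ∧
    ∀ (L : Type) [Field L] [CharZero L] (c : Mon (n + 1) d → L) (x b c' : Fin (n + 1) → L)
      (α β : L), x p = 1 → b p = 0 → b q = 1 → LinearIndependent L ![x, b, c'] →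
      res2 x b c' (frm c) = Polynomial.C (eval x (frm c)) *
        (1 + Polynomial.C α * Polynomial.X) ^ i * (1 + Polynomial.C β * Polynomial.X) ^ j →
      aeval (Sum.elim c (fun l : {l : Fin (n + 1) // l ≠ p} => x l.1)) Ψ = 0

/-- XC: there is a hypersurface which contains all points on exceptional conics -/
def T_XC : Prop := ∀ (k : Type) [Field k] [CharZero k] (n d : ℕ) (c : Mon (n + 1) d → k),
  n + 2 ≤ d → AlgebraicIndependent ℚ c →
  ∃ (Φ : MvPolynomial (Fin (n + 1)) k) (m : ℕ), Φ ≠ 0 ∧ Φ.IsHomogeneous m ∧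
    ∀ (K : Type) [Field K] [Algebra k K] (x b c' : Fin (n + 1) → K) (p : Fin (n + 1)),
      x p = 1 → LinearIndependent K ![x, b, c'] →
      TwoRoots2 d (up K (frm c)) x b c' → eval x (up K Φ) = 0

end Pool.Agent.H17.BO
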