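import Pool.Agent.H17.BO.TargetsF
import Pool.Agent.H30.VMP.FIP
import Pool.Agent.H30.VM.TargetsG

/-!
# MP_70ba79_ag: very general log complete intersections together with the border case of a
hypersurface
-/

set_option autoImplicit false

namespace Pool.Agent.H17.BO

open MvPolynomial SC Pool.Agent.H27.LV Pool.Agent.H17.VG Pool.Agent.H30.VM
open Pool.Agent.H17.CI (Tup frmT upT)

/-- the border case: the complement of one hypersurface of degree `d`, `d ≥ n + 2` and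
`2 d = 3 n + 1` -/
def Brd (n : ℕ) {ι : Type} [Fintype ι] (e : ι → ℕ) (Z : Finset ι) : Prop :=
  Z = ∅ ∧ Fintype.card ι = 1 ∧ n + 2 ≤ ∑ i, (e i + 1) ∧ 2 * ∑ i, (e i + 1) = 3 * n + 1

/-- the point `z` of `X` lies on a smooth conic which meets the boundary in at most two points -/
def excPC {k : Type} [Field k] {n : ℕ} {ι : Type} [Fintype ι] [DecidableEq ι] {e : ι → ℕ}
    (Z : Finset ι) (c : (Σ i, Mon (n + 1) (e i + 1)) → k) (K : Type) [Field K] [Algebra k K]
    (z : Mon (n + 1) (dgB e Z) → K) : Prop :=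
  ∃ x b c' : Fin (n + 1) → K, IsPt Z c z x ∧ LinearIndependent K ![x, b, c'] ∧
    TwoRoots2 (dgB e Z) (up K (bnd Z c)) x b c'

/-- a point of `X` where a form is not zero -/
lemma exists_pt (hPB : T_PTB) (hPS : T_PSP) {k : Type} [Field k] [IsAlgClosed k] {n : ℕ}
    {ι : Type} [Fintype ι] [DecidableEq ι] (i₀ : ι) (e : ι → ℕ) (Z : Finset ι)
    (c : (Σ i, Mon (n + 1) (e i + 1)) → k) (hi₀ : i₀ ∉ Z)
    (Φ : MvPolynomial (Fin (n + 1)) k) (m : ℕ) (hΦ : Φ.IsHomogeneous m)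
    (x : Fin (n + 1) → k) (hx : ∀ i, eval x (frmT c i) = 0 ↔ i ∈ Z) (hxΦ : eval x Φ ≠ 0) :
    ∃ Ψ : MvPolynomial (Mon (n + 1) (dgB e Z)) k,
      (∃ z : Mon (n + 1) (dgB e Z) → k, (∀ g ∈ eqsP Z c, aeval z g = 0) ∧ aeval z Ψ ≠ 0) ∧
      ∀ (K : Type) [Field K] [Algebra k K] (z : Mon (n + 1) (dgB e Z) → K)
        (x : Fin (n + 1) → K), IsPt Z c z x → eval x (up K Φ) = 0 → aeval z Ψ = 0 := by
  obtain ⟨Ψ, hΨ⟩ := hPS k n ι i₀ e Z c hi₀ Φ m hΦ
  have hup : ∀ i, upT k (frmT c) i = frmT c i := fun i => Pool.Agent.H30.VMP.up_self _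
  refine ⟨Ψ, ?_, fun K _ _ z x hx h0 => (hΨ K z x hx).2 h0⟩
  have hx0 : x ≠ 0 := by
    rintro rfl
    have h0 : eval (0 : Fin (n + 1) → k) (frmT c i₀) = 0 := by
      have h1 := Pool.Agent.H30.VMP.eval_smul_hom (frm_homog fun M => c ⟨i₀, M⟩) (0 : k)
        (0 : Fin (n + 1) → k)
      rw [zero_pow (Nat.succ_ne_zero _), zero_mul] at h1
      rw [zero_smul] at h1
      exact h1
    exact hi₀ ((hx i₀).1 h0)
  obtain ⟨p, hp⟩ := Function.ne_iff.1 hx0
  have hp' : x p ≠ 0 := hp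
  have hx' : ∀ i, eval ((x p)⁻¹ • x) (frmT c i) = 0 ↔ i ∈ Z := by
    intro i
    have h2 : eval ((x p)⁻¹ • x) (frmT c i) = ((x p)⁻¹) ^ (e i + 1) * eval x (frmT c i) :=
      Pool.Agent.H30.VMP.eval_smul_hom (frm_homog fun M => c ⟨i, M⟩) _ _
    rw [← hx i, h2]
    constructor
    · intro h
      exact (mul_eq_zero.1 h).resolve_left (pow_ne_zero _ (inv_ne_zero hp'))
    · intro h
      rw [h, mul_zero]
  have hI : IsPt Z c (fun M : Mon (n + 1) (dgB e Z) =>
      (∏ a, ((x p)⁻¹ • x) a ^ M.1 a) / eval ((x p)⁻¹ • x) (up k (bnd Z c)))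
      ((x p)⁻¹ • x) := by
    refine ⟨⟨p, ?_⟩, ?_, fun M => rfl⟩
    · rw [Pi.smul_apply, smul_eq_mul, inv_mul_cancel₀ hp']
    · intro i
      rw [hup i]
      exact hx' i
  refine ⟨_, (hPB k k n ι e Z c _ _ hI), ?_⟩
  intro h0
  have h1 := (hΨ k _ _ hI).1 h0
  rw [Pool.Agent.H30.VMP.up_self, Pool.Agent.H30.VMP.eval_smul_hom hΦ] at h1
  exact hxΦ ((mul_eq_zero.1 h1).resolve_left (pow_ne_zero _ (inv_ne_zero hp')))

/-- the union of the two main theorems -/
def T_FIPB : Prop :=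
    ∀ (n : ℕ) (ι : Type) [Fintype ι] [DecidableEq ι] (e : ι → ℕ)
    (Z : Finset ι), Z ≠ Finset.univ → Z.card < n →
    3 * n + 2 ≤ 2 * ∑ i, (e i + 1) + Z.card ∨ Brd n e Z →
    ∃ C : ℕ, ∀ (k : Type) [Field k] [IsAlgClosed k] [CharZero k]
    (c : (Σ i, Mon (n + 1) (e i + 1)) → k), AlgebraicIndependent ℚ c →
    DegreeBoundOff k (eqsP Z c)
      (fun K _ _ z => excP Z c K z ∨ (Brd n e Z ∧ excPC Z c K z)) (fun χ => C * χ) ∧
    (∃ Ψ : MvPolynomial (Mon (n + 1) (dgB e Z)) k,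
      (∃ z : Mon (n + 1) (dgB e Z) → k, (∀ g ∈ eqsP Z c, aeval z g = 0) ∧ aeval z Ψ ≠ 0) ∧
      ∀ (K : Type) [Field K] [Algebra k K] (z : Mon (n + 1) (dgB e Z) → K),
        (excP Z c K z ∨ (Brd n e Z ∧ excPC Z c K z)) → aeval z Ψ = 0) ∧
    ∀ (K : Type) [Field K] [Algebra k K] (z : Mon (n + 1) (dgB e Z) → K),
      (∀ g ∈ eqsP Z c, aeval z g = 0) ↔ ∃ x, IsPt Z c z x

theorem pf_FIPB (hFIP : T_FIP) (hMN : T_MNB) (hPA : T_PTA) (hPB : T_PTB) (hVD : T_VDP)
    (hXF : T_XFT) (hPS : T_PSP) (hXC : T_XC) : T_FIPB := by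
  intro n ι _ _ e Z hZu hZ hne
  by_cases hB : Brd n e Z
  · obtain ⟨hZe, hcard, hlg, hbrd⟩ := id hB
    subst hZe
    obtain ⟨i₀, hi₀⟩ := Fintype.card_eq_one_iff.1 hcard
    have hsum : ∑ i, (e i + 1) = e i₀ + 1 := by
      rw [Finset.sum_eq_single i₀ (fun b _ hb => absurd (hi₀ b) hb)
        (fun h => absurd (Finset.mem_univ _) h)]
    rw [hsum] at hlg hbrd
    have hnot : i₀ ∉ (∅ : Finset ι) := Finset.notMem_empty _
    obtain ⟨δ, hδ⟩ : ∃ δ, n = 2 * δ + 1 := ⟨n / 2, by omega⟩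
    obtain ⟨C, hC⟩ := hMN n (e i₀) δ (by omega) hδ (by omega)
    have hun : (Finset.univ \ (∅ : Finset ι)) = {i₀} := by
      ext i
      simp [hi₀ i]
    have hdg : dgB e (∅ : Finset ι) = e i₀ + 1 := by
      unfold dgB
      rw [hun, Finset.sum_singleton]
    refine ⟨dgB e ∅ * C, ?_⟩
    intro k _ _ _ c hc
    have hbnd : bnd ∅ c = frm fun M => c ⟨i₀, M⟩ := by
      unfold bnd
      rw [hun, Finset.prod_singleton]
      rfl
    obtain ⟨c0, hc0⟩ : ∃ c0 : Mon (n + 1) (e i₀ + 1) → k, c0 = fun M => c ⟨i₀, M⟩ := ⟨_, rfl⟩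
    have hci : AlgebraicIndependent ℚ c0 := by
      rw [hc0]
      exact hc.comp (fun M : Mon (n + 1) (e i₀ + 1) => (⟨i₀, M⟩ : Σ i, Mon (n + 1) (e i + 1)))
        (fun M M' h => by simpa using h)
    have hupT : ∀ (K : Type) [Field K] [Algebra k K], upT K (frmT c) i₀ = up K (frm c0) := by
      intro K _ _
      rw [hc0]
      rfl
    have hline : ∀ (K : Type) [Field K] [Algebra k K] (x y : Fin (n + 1) → K),
        TwoRoots (e i₀ + 1) (up K (frm c0)) x y ↔ Exc e ∅ (upT K (frmT c)) x y := by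
      intro K _ _ x y
      constructor
      · rintro ⟨α, β, a, b, hab, h⟩
        refine ⟨fun i hi => absurd hi (Finset.notMem_empty _), α, β, ?_⟩
        intro i _
        obtain rfl := hi₀ i
        refine ⟨a, b, hab, ?_⟩
        rw [hupT K]
        exact h
      · rintro ⟨-, α, β, h⟩
        obtain ⟨a, b, hab, h1⟩ := h i₀ hnot
        refine ⟨α, β, a, b, hab, ?_⟩
        rw [hupT K] at h1
        exact h1
    refine ⟨?_, ?_, ?_⟩
    · intro K _ _ _ htr S z hz hreg hnc hexc D hD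
      obtain ⟨x, hx⟩ := hPA k K n ι i₀ e ∅ c hnot z hz
      obtain ⟨h1, h2, h3⟩ := hVD k K htr n ι i₀ e ∅ c z x hnot hx
      obtain ⟨p, hp⟩ := hx.1
      have hF : eval x (up K (frm c0)) ≠ 0 := by
        intro h0
        rw [← hupT K] at h0
        exact hnot ((hx.2.1 i₀).1 h0)
      have h4 := hC k c0 hci K htr D hD x p hp (h3 hnc) hF
        ⟨fun y hxy htwo => hexc (Or.inl ⟨x, y, hx, hxy, (hline K x y).1 htwo⟩),
          fun b c' hb htwo => hexc (Or.inr ⟨hB, x, b, c', hx, hb, by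
            rw [hdg, hbnd, ← hc0]
            exact htwo⟩)⟩ S
        (fun v hv => by
          have h5 := h1 v (hreg v hv) i₀ hnot
          rw [hupT K] at h5
          exact h5)
      rw [h2]
      show ((dgB e ∅ * deg k x : ℕ) : ℤ) ≤ ((dgB e ∅ * C : ℕ) : ℤ) * (canDeg D + S.card)
      rw [Nat.cast_mul, Nat.cast_mul, mul_assoc]
      exact mul_le_mul_of_nonneg_left h4 (Int.natCast_nonneg _)
    · obtain ⟨Φ1, m1, hΦ1, ⟨x1, hx1, hxΦ1⟩, hall1⟩ := hXF k n ι e ∅ c (by simp)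
        (by rw [hsum]; omega) hc
      obtain ⟨Φ2, m2, hΦ20, hΦ2, hall2⟩ := hXC k n (e i₀ + 1) c0 (by omega) hci
      have hne0 : frm c0 * (Φ1 * Φ2) ≠ 0 := by
        refine mul_ne_zero ?_ (mul_ne_zero ?_ hΦ20)
        · intro h0
          have h1 := (hx1 i₀).not.2 hnot
          apply h1
          show eval x1 (frm fun M => c ⟨i₀, M⟩) = 0
          rw [← hc0, h0, map_zero]
        · rintro rfl
          exact hxΦ1 (map_zero _)
      obtain ⟨x, hx⟩ : ∃ x : Fin (n + 1) → k, eval x (frm c0 * (Φ1 * Φ2)) ≠ 0 := by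
        by_contra hall
        push Not at hall
        exact hne0 (MvPolynomial.funext fun x => by rw [hall x, map_zero])
      rw [map_mul] at hx
      obtain ⟨Ψ, h1, h2⟩ := exists_pt hPB hPS i₀ e ∅ c hnot (Φ1 * Φ2) (m1 + m2) (hΦ1.mul hΦ2) x
        (by
          intro i
          obtain rfl := hi₀ i
          constructor
          · intro h0
            exfalso
            apply hx
            have h3 : eval x (frm c0) = 0 := by
              rw [hc0]
              exact h0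
            rw [h3, zero_mul]
          · intro h
            exact absurd h hnot)
        (right_ne_zero_of_mul hx)
      refine ⟨Ψ, h1, ?_⟩
      rintro K _ _ z (⟨x', y, hx', hxy, hex⟩ | ⟨-, x', b, c', hx', hind, hex⟩)
      · refine h2 K z x' hx' ?_
        have h3 := hall1 K x' y hxy hx'.2.1 hex
        unfold up at h3 ⊢
        rw [map_mul, map_mul, h3, zero_mul]
      · refine h2 K z x' hx' ?_
        obtain ⟨p, hp⟩ := hx'.1
        rw [hdg, hbnd, ← hc0] at hex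
        have h3 := hall2 K x' b c' p hp hind hex
        unfold up at h3 ⊢
        rw [map_mul, map_mul, h3, mul_zero]
    · intro K _ _ z
      constructor
      · intro hz
        exact hPA k K n ι i₀ e ∅ c hnot z hz
      · rintro ⟨x, hx⟩
        exact hPB k K n ι e ∅ c z x hx
  · obtain ⟨C, hC⟩ := hFIP n ι e Z hZu hZ (hne.resolve_right hB)
    refine ⟨C, ?_⟩
    intro k _ _ _ c hc
    obtain ⟨h1, ⟨Ψ, h2, h3⟩, h4⟩ := hC k c hc
    refine ⟨?_, ⟨Ψ, h2, ?_⟩, h4⟩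
    · intro K _ _ _ htr S z hz hreg hnc hexc D hD
      exact h1 K htr S z hz hreg hnc (fun h => hexc (Or.inl h)) D hD
    · rintro K _ _ z (h | h)
      · exact h3 K z h
      · exact absurd h.1 hB

end Pool.Agent.H17.BO
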