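import Pool.Agent.H17.BO.Defs

/-!
# MP_70ba79_ag: targets of the board `bo_modules`, part C (the algebraic theorem)

`k` is an algebraically closed field, `L` an extension of `k` (think of `k` as the elements of
small height). `x` is a vector over `L`, `y 0` and `y 1` are functionals on forms of degree `e + 1`
over `L`, and for every form `Q` of degree `e` over `k` the minors `det3 x y Q` are in `κ k`. Then
`x` is on a line or on a conic over `k`.
-/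

set_option autoImplicit false

namespace Pool.Agent.H17.BO

open MvPolynomial SC Pool.Agent.H27.LV Pool.Agent.H17.VG

/-- LSL: solutions over `L` of linear equations over `k` are combinations of independent solutions
over `k` -/
def T_LSL : Prop := ∀ (k L ι ρ : Type) [Field k] [Field L] [Algebra k L] [Fintype ι]
  (A : ρ → ι → k) (v : ι → L), (∀ r, ∑ i, algebraMap k L (A r i) * v i = 0) →
  ∃ (N : ℕ) (w : Fin N → ι → k) (c : Fin N → L), LinearIndependent k w ∧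
    LinearIndependent k c ∧ (∀ j r, ∑ i, A r i * w j i = 0) ∧
    ∀ i, v i = ∑ j, c j * algebraMap k L (w j i)

/-- PLN: the plane -/
def T_PLN : Prop := ∀ (k L : Type) [Field k] [Infinite k] [Field L] [Algebra k L] (n e : ℕ)
  (x : Fin (n + 1) → L) (y : Fin 2 → Mon (n + 1) (e + 1) → L) (κ : L),
  (∀ (Q : Mon (n + 1) e → k) (a : Fin 3 → Fin (n + 1)), ∃ r : k,
    det3 x y (up L (frm Q)) a = κ * algebraMap k L r) →
  (∃ (Q : Mon (n + 1) e → k) (a : Fin 3 → Fin (n + 1)), det3 x y (up L (frm Q)) a ≠ 0) →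
  OnLine k x ∨ ∃ (s : Fin 3 → Fin (n + 1)) (P : Fin (n + 1) → Fin 3 → k),
    Function.Injective s ∧ (∀ t u, P (s t) u = if t = u then 1 else 0) ∧
    (∃ Q : Mon (n + 1) e → k, det3 x y (up L (frm Q)) s ≠ 0) ∧
    (∀ j, x j = ∑ t, algebraMap k L (P j t) * x (s t)) ∧
    ∀ (Q : Mon (n + 1) e → k) (b : Fin 2) (j : Fin (n + 1)),
      fnl (y b) (X j * up L (frm Q)) =
        ∑ t, algebraMap k L (P j t) * fnl (y b) (X (s t) * up L (frm Q))

/-- RES: functionals supported on a plane are functionals of the restriction to the plane -/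
def T_RES : Prop := ∀ (k L : Type) [Field k] [Field L] [Algebra k L] (n e : ℕ)
  (y : Fin 2 → Mon (n + 1) (e + 1) → L) (s : Fin 3 → Fin (n + 1)) (P : Fin (n + 1) → Fin 3 → k),
  Function.Injective s → (∀ t u, P (s t) u = if t = u then 1 else 0) →
  (∀ (Q : Mon (n + 1) e → k) (b : Fin 2) (j : Fin (n + 1)),
      fnl (y b) (X j * up L (frm Q)) =
        ∑ t, algebraMap k L (P j t) * fnl (y b) (X (s t) * up L (frm Q))) →
  ∃ y' : Fin 2 → Mon 3 (e + 1) → L, ∀ (b : Fin 2) (G : MvPolynomial (Fin (n + 1)) L),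
    G.IsHomogeneous (e + 1) → fnl (y b) G =
      fnl (y' b) (aeval (fun j => ∑ t, C (algebraMap k L (P j t)) * X t :
        Fin (n + 1) → MvPolynomial (Fin 3) L) G)

/-- DTT: determinants of order three and two -/
def T_DTT : Prop := ∀ (L : Type) [Field L] (x : Fin 3 → L), x ≠ 0 →
  ∃ (m : Fin 2 → Fin 3 → L) (μ : L), μ ≠ 0 ∧ LinearIndependent L m ∧
    (∀ i, ∑ t, m i t * x t = 0) ∧ ∀ Y : Fin 2 → Fin 3 → L,
    (Matrix.of fun i b : Fin 2 => ∑ t, m i t * Y b t).det =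
      μ * (Matrix.of fun t r : Fin 3 => (![x t, Y 0 t, Y 1 t] : Fin 3 → L) r).det

/-- MAT: linear spaces of matrices of order two with determinants in `κ k` -/
def T_MAT : Prop := ∀ (k L E : Type) [Field k] [IsAlgClosed k] [CharZero k] [Field L]
  [Algebra k L] [AddCommGroup E] [Module k E] (β : E →+ Matrix (Fin 2) (Fin 2) L) (κ : L),
  (∀ (c : k) (q : E), β (c • q) = algebraMap k L c • β q) →
  (∀ q, ∃ r : k, (β q).det = κ * algebraMap k L r) → (∃ q, (β q).det ≠ 0) →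
  ∃ A B : Matrix (Fin 2) (Fin 2) L, A.det ≠ 0 ∧ B.det ≠ 0 ∧
    ((∀ q, (A * β q * B) 0 1 = 0 ∧ ∃ r : k, (A * β q * B) 1 1 = algebraMap k L r) ∨
      ∀ q i j, ∃ r : k, (A * β q * B) i j = algebraMap k L r)

/-- ANN: a functional `lam` over `k` on ternary forms which vanishes on the multiples of a linear
form `m` over `L`: `lam = 0`, or `m` is a multiple of a form over `k`, or `lam` is a multiple of the
evaluation at a point `z` over `k` with `m (z) = 0` -/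
def T_ANN : Prop := ∀ (k L : Type) [Field k] [Field L] [Algebra k L] (e : ℕ)
  (lam : Mon 3 (e + 1) → k) (m : Fin 3 → L), m ≠ 0 →
  (∀ R : Mon 3 e → k, ∑ t, m t * algebraMap k L (fnl lam (X t * frm R)) = 0) →
  (∀ M, lam M = 0) ∨ (∃ (η : Fin 3 → k) (s : L), ∀ t, m t = s * algebraMap k L (η t)) ∨
  ∃ (z : Fin 3 → k) (c : k), z ≠ 0 ∧ c ≠ 0 ∧ ∑ t, m t * algebraMap k L (z t) = 0 ∧
    ∀ Q : Mon 3 (e + 1) → k, fnl lam (frm Q) = c * eval z (frm Q)

/-- EVX: functionals which vanish on all forms that vanish at `x` -/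
def T_EVX : Prop := ∀ (L : Type) [Field L] (n e : ℕ) (x : Fin (n + 1) → L), x ≠ 0 →
  ∀ y : Mon (n + 1) (e + 1) → L, (∀ ζ : Fin (n + 1) → L, ∑ t, ζ t * x t = 0 →
    ∀ R : MvPolynomial (Fin (n + 1)) L, R.IsHomogeneous e → fnl y (lin ζ * R) = 0) →
  ∃ c : L, ∀ G : MvPolynomial (Fin (n + 1)) L, G.IsHomogeneous (e + 1) →
    fnl y G = c * eval x G

/-- OLN: a point with `η (x) = 0`, `η` over `k`, is on a line over `k` (in the plane) -/
def T_OLN : Prop := ∀ (k L : Type) [Field k] [Field L] [Algebra k L] (x : Fin 3 → L)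
  (η : Fin 3 → k), η ≠ 0 → ∑ t, algebraMap k L (η t) * x t = 0 → OnLine k x

/-- TRI: the triangular case -/
def T_TRI : Prop := ∀ (k L : Type) [Field k] [Field L] [Algebra k L] (e m : ℕ)
  (g : Fin m → MvPolynomial (Fin 3) k), (∀ a, (g a).IsHomogeneous (e + 1)) →
  (∀ z : Fin 3 → k, z ≠ 0 → ∃ a, eval z (g a) ≠ 0) →
  ∀ (x : Fin 3 → L) (y : Mon 3 (e + 2) → L) (m0 m1 : Fin 3 → L), x ≠ 0 →
  LinearIndependent L ![m0, m1] → ∑ t, m0 t * x t = 0 → ∑ t, m1 t * x t = 0 →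
  (∀ ζ : Fin 3 → L, ∑ t, ζ t * x t = 0 → ∀ a, fnl y (lin ζ * up L (g a)) = 0) →
  (∀ Q : Mon 3 (e + 1) → k, fnl y (lin m0 * up L (frm Q)) = 0) →
  (∀ Q : Mon 3 (e + 1) → k, ∃ r : k, fnl y (lin m1 * up L (frm Q)) = algebraMap k L r) →
  (∃ Q : Mon 3 (e + 1) → k, fnl y (lin m1 * up L (frm Q)) ≠ 0) → OnLine k x

/-- RK1: a pencil of matrices of order three has a singular member -/
def T_RK1 : Prop := ∀ (k : Type) [Field k] [IsAlgClosed k]
  (W : Submodule k ((Fin 3 → k) × (Fin 3 → k))), 3 ≤ Module.finrank k W →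
  ∃ (s0 s1 : k) (η : Fin 3 → k), (s0 ≠ 0 ∨ s1 ≠ 0) ∧ η ≠ 0 ∧ (s0 • η, s1 • η) ∈ W

/-- SG2: `x` is orthogonal to two vectors in a pencil -/
def T_SG2 : Prop := ∀ (k L : Type) [Field k] [Field L] [Algebra k L] (x : Fin 3 → L)
  (m : Fin 2 → Fin 3 → L), LinearIndependent L m → (∀ i, ∑ t, m i t * x t = 0) →
  ∀ (w w' : Fin 2 → Fin 3 → k) (a b : L),
  (∀ i t, m i t = a * algebraMap k L (w i t) + b * algebraMap k L (w' i t)) →
  OnLine k x ∨ OnConic k x

/-- SG3: the case of a reducible conic -/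
def T_SG3 : Prop := ∀ (k L : Type) [Field k] [Field L] [Algebra k L] (e m : ℕ), 1 ≤ e →
  ∀ (g : Fin m → MvPolynomial (Fin 3) k), (∀ a, (g a).IsHomogeneous (e + 1)) →
  ∀ (x : Fin 3 → L) (y : Fin 2 → Mon 3 (e + 2) → L) (ν : Fin 2 → Fin m → L),
  Fun2 (fun a => up L (g a)) x y ν →
  ∀ w : Fin m → L, (∀ b, ∑ a, ν b a * w a = 0) → ∑ a, w a * eval x (up L (g a)) ≠ 0 →
  ∀ m0 m1 : Fin 3 → L, LinearIndependent L ![m0, m1] → ∑ t, m0 t * x t = 0 →
  ∑ t, m1 t * x t = 0 →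
  (∀ (Q : Mon 3 (e + 1) → k) b, (∃ r : k, fnl (y b) (lin m0 * up L (frm Q)) =
    algebraMap k L r) ∧ ∃ r : k, fnl (y b) (lin m1 * up L (frm Q)) = algebraMap k L r) →
  ∀ (s0 s1 : k) (η : Fin 3 → k), (s0 ≠ 0 ∨ s1 ≠ 0) → η ≠ 0 →
  (∀ (R : Mon 3 e → k) b,
    algebraMap k L s1 * fnl (y b) (lin m0 * up L (lin η * frm R)) =
      algebraMap k L s0 * fnl (y b) (lin m1 * up L (lin η * frm R))) → OnLine k x

/-- TER: the algebraic theorem in the plane -/
def T_TER : Prop := ∀ (k L : Type) [Field k] [IsAlgClosed k] [CharZero k] [Field L]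
  [Algebra k L] (e m : ℕ), 1 ≤ e →
  ∀ (g : Fin m → MvPolynomial (Fin 3) k), (∀ a, (g a).IsHomogeneous (e + 1)) →
  (∀ z : Fin 3 → k, z ≠ 0 → ∃ a, eval z (g a) ≠ 0) →
  ∀ (x : Fin 3 → L) (y : Fin 2 → Mon 3 (e + 2) → L) (ν : Fin 2 → Fin m → L),
  Fun2 (fun a => up L (g a)) x y ν →
  ∀ w : Fin m → L, (∀ b, ∑ a, ν b a * w a = 0) → ∑ a, w a * eval x (up L (g a)) ≠ 0 →
  ∀ κ : L, (∀ Q : Mon 3 (e + 1) → k, ∃ r : k,
    det3 x y (up L (frm Q)) id = κ * algebraMap k L r) →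
  (∃ Q : Mon 3 (e + 1) → k, det3 x y (up L (frm Q)) id ≠ 0) → OnLine k x ∨ OnConic k x

/-- ALG: the algebraic theorem -/
def T_ALG : Prop := ∀ (k L : Type) [Field k] [IsAlgClosed k] [CharZero k] [Field L]
  [Algebra k L] (n e : ℕ), 1 ≤ e → ∀ F : MvPolynomial (Fin (n + 1)) k,
  F.IsHomogeneous (e + 2) → (∀ z : Fin (n + 1) → k, z ≠ 0 → ∃ j, eval z (pderiv j F) ≠ 0) →
  ∀ (x : Fin (n + 1) → L) (y : Fin 2 → Mon (n + 1) (e + 2) → L) (ν : Fin 2 → Fin (n + 1) → L),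
  Fun2 (fun a => pderiv a (up L F)) x y ν → (∀ b, ∑ i, ν b i * x i = 0) →
  eval x (up L F) ≠ 0 → ∀ κ : L,
  (∀ (Q : Mon (n + 1) (e + 1) → k) (a : Fin 3 → Fin (n + 1)), ∃ r : k,
    det3 x y (up L (frm Q)) a = κ * algebraMap k L r) →
  (∃ (Q : Mon (n + 1) (e + 1) → k) (a : Fin 3 → Fin (n + 1)),
    det3 x y (up L (frm Q)) a ≠ 0) → OnLine k x ∨ OnConic k x

end Pool.Agent.H17.BO
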