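import Pool.Agent.H17.BO.TargetsF
import Pool.Agent.H17.VG.FIN

/-!
# MP_70ba79_ag: the final statement in the border case (row FINB of the board `bo_modules`)
-/

set_option autoImplicit false

namespace Pool.Agent.H17.BO

open MvPolynomial SC Pool.Agent.H27.LV Pool.Agent.H17.VG

theorem pf_FINB (hFIN : T_FIN) (hMN : T_MNB) (hVE : T_VE) (hVD : T_VD) (hX : T_X) (hXC : T_XC) :
    T_FINB := by
  intro n e hn hne hne2
  have hΦ : ∀ (k : Type) [Field k] [IsAlgClosed k] [CharZero k]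
      (c : Mon (n + 1) (e + 1) → k), AlgebraicIndependent ℚ c →
      ∃ (Φ : MvPolynomial (Fin (n + 1)) k) (m : ℕ), Φ ≠ 0 ∧ Φ.IsHomogeneous m ∧
        ∀ (K : Type) [Field K] [Algebra k K] (x : Fin (n + 1) → K) (p : Fin (n + 1)), x p = 1 →
        ((∃ y, Indep x y ∧ TwoRoots (e + 1) (up K (frm c)) x y) ∨
          ∃ b c', LinearIndependent K ![x, b, c'] ∧
            TwoRoots2 (e + 1) (up K (frm c)) x b c') → eval x (up K Φ) = 0 := by
    intro k _ _ _ c hc
    obtain ⟨Φ1, m1, h1, h2, h3⟩ := hX k n (e + 1) c (by omega) hc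
    obtain ⟨Φ2, m2, h4, h5, h6⟩ := hXC k n (e + 1) c (by omega) hc
    refine ⟨Φ1 * Φ2, m1 + m2, mul_ne_zero h1 h4, h2.mul h5, ?_⟩
    intro K _ _ x p hp h
    unfold up
    rw [map_mul, map_mul]
    rcases h with ⟨y, hy, hy2⟩ | ⟨b, c', hb, hb2⟩
    · have := h3 K x y p hp hy hy2
      unfold up at this
      rw [this, zero_mul]
    · have := h6 K x b c' p hp hb hb2
      unfold up at this
      rw [this, mul_zero]
  rcases Nat.lt_or_ge (2 * e) (3 * n) with hlt | hle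
  · have h3 : 3 * n = 2 * e + 1 := by omega
    obtain ⟨δ, hδ⟩ : ∃ δ, n = 2 * δ + 1 := ⟨n / 2, by omega⟩
    obtain ⟨C, hC⟩ := hMN n e δ (by omega) hδ (by omega)
    refine ⟨(e + 1) * C, ?_⟩
    intro k _ _ _ c hc
    refine ⟨?_, hΦ k c hc⟩
    intro K _ _ _ htr S z hz hreg hnc hexc D hD
    obtain ⟨x, p, hp, hF, hzx⟩ := hVE k K n (e + 1) c z (by omega) hz
    obtain ⟨h1, h2, h4⟩ := hVD k K htr n (e + 1) c z x p (by omega) hp hF hzx
    have h5 := hC k c hc K htr D hD x p hp (h4 hnc) hF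
      ⟨fun y hy htwo => hexc (Or.inl ⟨x, y, p, hp, hy, htwo, hF, hzx⟩),
        fun b c' hb htwo => hexc (Or.inr ⟨h3, x, b, c', p, hp, hb, htwo, hF, hzx⟩)⟩ S
      (fun v hv => h1 v fun M => hreg v hv M)
    rw [h2]
    push_cast
    calc ((e : ℤ) + 1) * deg k x ≤ ((e : ℤ) + 1) * (C * (canDeg D + S.card)) := by
          refine mul_le_mul_of_nonneg_left h5 (by positivity)
      _ = ((e : ℤ) + 1) * C * (canDeg D + S.card) := by ring
  · obtain ⟨C, hC⟩ := hFIN n e hn hle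
    refine ⟨C, ?_⟩
    intro k _ _ _ c hc
    refine ⟨?_, hΦ k c hc⟩
    intro K _ _ _ htr S z hz hreg hnc hexc D hD
    exact (hC k c hc).1 K htr S z hz hreg hnc (fun h => hexc (Or.inl h)) D hD

end Pool.Agent.H17.BO
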