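import Pool.Agent.H17.BO.TargetsE

/-!
# MP_70ba79_ag, board `bo_modules`: row HGT (heights on a conic)
-/

set_option autoImplicit false

namespace Pool.Agent.H17.BO

open MvPolynomial SC Pool.Agent.H27.LV Pool.Agent.H17.VG

section

variable {k L : Type} [Field k] [Field L] [Algebra k L]

lemma h1_sum (hadd : ∀ z w : L, h1 k (z + w) ≤ h1 k z + h1 k w) (h0 : h1 k (0 : L) = 0)
    {ι : Type} (s : Finset ι) (f : ι → L) : h1 k (∑ i ∈ s, f i) ≤ ∑ i ∈ s, h1 k (f i) := by
  classical
  induction s using Finset.induction_on with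
  | empty => simp [h0]
  | insert i s hi ih =>
    rw [Finset.sum_insert hi, Finset.sum_insert hi]
    exact (hadd _ _).trans (Nat.add_le_add_left ih _)

lemma h1_pow (hmul : ∀ z w : L, h1 k (z * w) ≤ h1 k z + h1 k w) (h1' : h1 k (1 : L) = 0)
    (z : L) (m : ℕ) : h1 k (z ^ m) ≤ m * h1 k z := by
  induction m with
  | zero => simp [h1']
  | succ m ih =>
    rw [pow_succ]
    refine (hmul _ _).trans ?_
    have : (m + 1) * h1 k z = m * h1 k z + h1 k z := by ring
    omega

end

theorem pf_HGT (hONE : T_ONE) (hNZ : T_NZ3) (hHLK : T_HLK) (hHTA : T_HTA) (hHTR : T_HTR) :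
    T_HGT := by
  classical
  intro n N
  obtain ⟨c1, hc1⟩ : ∃ c1, c1 = (N + 1) * (1 + N * N) := ⟨_, rfl⟩
  obtain ⟨c2, hc2⟩ : ∃ c2, c2 = 9 * (1 + 2 * c1) := ⟨_, rfl⟩
  obtain ⟨c3, hc3⟩ : ∃ c3, c3 = 3 * (1 + 3 * c1 + 4 * c2) := ⟨_, rfl⟩
  refine ⟨(n + 1) * (2 * c3 + 18), ?_⟩
  intro k K L _ _ _ _ _ _ _ _ _ _ _ _ htr htrL d F x p hd hF hp hFx s P q U V Y B hcon hH θ hθ
    α hα
  have hKz : CharZero K := charZero_of_injective_algebraMap (algebraMap k K).injective
  have hLz : CharZero L := charZero_of_injective_algebraMap (algebraMap k L).injective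
  have hA := hHTA k L htrL
  have hadd : ∀ z w : L, h1 k (z + w) ≤ h1 k z + h1 k w := fun z w => (hA z w).1
  have hmul : ∀ z w : L, h1 k (z * w) ≤ h1 k z + h1 k w := fun z w => (hA z w).2.1
  have hinv : ∀ z : L, h1 k z⁻¹ = h1 k z := fun z => (hA z z).2.2.1
  have hcst : ∀ a : k, h1 k (algebraMap k L a) = 0 := fun a => (hA 0 0).2.2.2.1 a
  have hz0 : h1 k (0 : L) = 0 := by rw [← map_zero (algebraMap k L)]; exact hcst 0
  have hz1 : h1 k (1 : L) = 0 := by rw [← map_one (algebraMap k L)]; exact hcst 1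
  have hneg : ∀ z : L, h1 k (-z) ≤ h1 k z := by
    intro z
    have h2 := hmul (algebraMap k L (-1)) z
    rw [hcst, zero_add, map_neg, map_one, neg_one_mul] at h2
    exact h2
  have hdiv : ∀ z w : L, h1 k (z / w) ≤ h1 k z + h1 k w := by
    intro z w
    rw [div_eq_mul_inv, ← hinv w]
    exact hmul _ _
  have hK := (hHLK k K L htr htrL).1
  obtain ⟨M, hM⟩ : ∃ M, M = Module.finrank K L * B := ⟨_, rfl⟩
  have hKB : ∀ a : K, h1 k a ≤ B → h1 k (algebraMap K L a) ≤ M := by
    intro a ha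
    rw [hK, hM]
    exact Nat.mul_le_mul_left _ ha
  have hPB : ∀ (W : Polynomial K) (i : ℕ), hP k W ≤ B → h1 k (algebraMap K L (W.coeff i)) ≤ M := by
    intro W i hW
    apply hKB
    by_cases hi : i < W.natDegree + 1
    · have h2 := ((hHTA k K htr 0 0).2.2.2.2 (Fin (W.natDegree + 1))
        (fun i => W.coeff i)).1 ⟨i, hi⟩
      exact h2.trans hW
    · rw [Polynomial.coeff_eq_zero_of_natDegree_lt (by omega)]
      have h2 := (hHTA k K htr 0 0).2.2.2.1 0
      rw [map_zero] at h2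
      rw [h2]
      exact Nat.zero_le _
  -- height of theta
  have hθB : h1 k θ ≤ N * M := by
    have h2 := hHTR k L htrL U.natDegree (fun i => algebraMap K L (U.coeff i)) θ (by
      rw [← hθ, Polynomial.eval_map, Polynomial.eval₂_eq_sum_range, Finset.sum_range_succ,
        hcon.monic.coeff_natDegree, map_one, one_mul, ← Fin.sum_univ_eq_sum_range
        (fun i => algebraMap K L (U.coeff i) * θ ^ i), add_comm])
    have h3 : ∀ i ∈ (Finset.univ : Finset (Fin U.natDegree)),
        h1 k (algebraMap K L (U.coeff (i : ℕ))) ≤ M := fun i _ => hPB U i hH.hU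
    refine h2.trans ((Finset.sum_le_sum h3).trans ?_)
    rw [Finset.sum_const, Finset.card_univ, Fintype.card_fin, smul_eq_mul]
    exact Nat.mul_le_mul_right _ hH.dU
  obtain ⟨y, hy⟩ : ∃ y : Fin 3 → Fin 3 → L, y = fun j a => Polynomial.aeval θ (Y j a) :=
    ⟨_, rfl⟩
  have hyB : ∀ j a, h1 k (y j a) ≤ c1 * M := by
    intro j a
    rw [hy]
    show h1 k (Polynomial.aeval θ (Y j a)) ≤ c1 * M
    rw [Polynomial.aeval_eq_sum_range' (n := N + 1) (Nat.lt_succ_of_le (hH.dY j a))]
    refine (h1_sum hadd hz0 _ _).trans ?_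
    have h3 : ∀ i ∈ Finset.range (N + 1), h1 k ((Y j a).coeff i • θ ^ i) ≤ M + N * (N * M) := by
      intro i hi
      rw [Algebra.smul_def]
      refine (hmul _ _).trans ?_
      have h4 := hPB (Y j a) i (hH.hY j a)
      have h5 := h1_pow hmul hz1 θ i
      have h6 : i * h1 k θ ≤ N * (N * M) :=
        Nat.mul_le_mul (by have := Finset.mem_range.1 hi; omega) hθB
      omega
    refine (Finset.sum_le_sum h3).trans ?_
    rw [Finset.sum_const, Finset.card_range, smul_eq_mul, hc1]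
    apply le_of_eq
    ring
  -- the three points
  obtain ⟨hdet, hyy, hyne, α', hα', hα'0⟩ := hNZ K L n d F x hd hF hFx s P q U V Y hcon θ hθ
  rw [← hy] at hdet
  have hαeq : α = α' := by
    have h2 : ∀ a, ∑ j, (α j - α' j) * y j a = 0 := by
      intro a
      have h3 := hα a
      have h4 := hα' a
      simp only [sub_mul, Finset.sum_sub_distrib]
      rw [hy]
      show ∑ j, α j * Polynomial.aeval θ (Y j a) - ∑ j, α' j * Polynomial.aeval θ (Y j a) = 0
      rw [← h3, ← h4, sub_self]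
    have h3 : Matrix.vecMul (fun j => α j - α' j) (Matrix.of y) = 0 := by
      funext a
      exact h2 a
    have h4 := Matrix.eq_zero_of_vecMul_eq_zero hdet h3
    funext j
    exact sub_eq_zero.1 (congrFun h4 j)
  have hα0 : ∀ j, α j ≠ 0 := by rw [hαeq]; exact hα'0
  obtain ⟨qL, hqL⟩ : ∃ qL : Matrix (Fin 3) (Fin 3) L, qL = q.map (algebraMap K L) := ⟨_, rfl⟩
  have hyy' : ∀ j, bil qL (y j) (y j) = 0 := by
    intro j
    rw [hqL, hy]
    exact hyy j
  have hyne' : ∀ i j, i ≠ j → bil qL (y i) (y j) ≠ 0 := by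
    intro i j hij
    rw [hqL, hy]
    exact hyne i j hij
  have hαy : ∀ a, algebraMap K L (x (s a)) = ∑ j, α j * y j a := by
    intro a
    rw [hy]
    exact hα a
  obtain ⟨t, ht⟩ : ∃ t, t = tco qL y α := ⟨_, rfl⟩
  obtain ⟨ht0, ht1, ht2, ht3, ht4⟩ := hONE L qL y α (by
    rw [hqL]
    exact hcon.symm.map _) hyy' hyne' hα0 (by
    have h2 := hcon.on
    have h3 : bil qL (fun a => ∑ j, α j * y j a) (fun a => ∑ j, α j * y j a) =
        algebraMap K L (∑ a, ∑ b, q a b * x (s a) * x (s b)) := by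
      unfold bil
      rw [map_sum]
      refine Finset.sum_congr rfl fun a _ => ?_
      rw [map_sum]
      refine Finset.sum_congr rfl fun b _ => ?_
      beta_reduce
      rw [← hαy, ← hαy, map_mul, map_mul, hqL]
      rfl
    rw [h3, h2, map_zero])
  rw [← ht] at ht0 ht1 ht2 ht3 ht4
  have hb : ∀ i j, h1 k (bil qL (y i) (y j)) ≤ c2 * M := by
    intro i j
    unfold bil
    refine (h1_sum hadd hz0 _ _).trans ?_
    have h3 : ∀ a b, h1 k (qL a b * y i a * y j b) ≤ M + c1 * M + c1 * M := by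
      intro a b
      have h4 : h1 k (qL a b) ≤ M := by
        rw [hqL]
        exact hKB _ (hH.hq a b)
      have h5 := hmul (qL a b * y i a) (y j b)
      have h6 := hmul (qL a b) (y i a)
      have h7 := hyB i a
      have h8 := hyB j b
      omega
    have h4 : ∀ a ∈ (Finset.univ : Finset (Fin 3)),
        h1 k (∑ b, qL a b * y i a * y j b) ≤ 3 * (M + c1 * M + c1 * M) := by
      intro a _
      refine (h1_sum hadd hz0 _ _).trans ((Finset.sum_le_sum fun b _ => h3 a b).trans ?_)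
      rw [Finset.sum_const, Finset.card_univ, Fintype.card_fin, smul_eq_mul]
    refine (Finset.sum_le_sum h4).trans ?_
    rw [Finset.sum_const, Finset.card_univ, Fintype.card_fin, smul_eq_mul, hc2]
    apply le_of_eq
    ring
  obtain ⟨r1, hr1⟩ : ∃ r1, r1 = α 1 / α 0 := ⟨_, rfl⟩
  obtain ⟨r2, hr2⟩ : ∃ r2, r2 = α 2 / α 0 := ⟨_, rfl⟩
  have hr1B : h1 k r1 ≤ 2 * (c2 * M) + h1 k t := by
    rw [hr1, ht3]
    have h2 := hmul (-(bil qL (y 0) (y 2) / bil qL (y 1) (y 2))) t
    have h3 := hneg (bil qL (y 0) (y 2) / bil qL (y 1) (y 2))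
    have h4 := hdiv (bil qL (y 0) (y 2)) (bil qL (y 1) (y 2))
    have h5 := hb 0 2
    have h6 := hb 1 2
    omega
  have hr2B : h1 k r2 ≤ 2 * (c2 * M) + 2 * h1 k t := by
    rw [hr2, ht4]
    have h2 := hmul (bil qL (y 0) (y 1) / bil qL (y 1) (y 2)) (t / (1 - t))
    have h4 := hdiv (bil qL (y 0) (y 1)) (bil qL (y 1) (y 2))
    have h5 := hb 0 1
    have h6 := hb 1 2
    have h7 := hdiv t (1 - t)
    have h8 : h1 k (1 - t) ≤ h1 k t := by
      rw [sub_eq_add_neg]
      refine (hadd _ _).trans ?_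
      rw [hz1, zero_add]
      exact hneg t
    omega
  obtain ⟨w, hw⟩ : ∃ w : Fin 3 → L, w = fun a => y 0 a + r1 * y 1 a + r2 * y 2 a := ⟨_, rfl⟩
  have hwB : ∀ a, h1 k (w a) ≤ 3 * (c1 * M) + 4 * (c2 * M) + 3 * h1 k t := by
    intro a
    rw [hw]
    show h1 k (y 0 a + r1 * y 1 a + r2 * y 2 a) ≤ _
    have h2 := hadd (y 0 a + r1 * y 1 a) (r2 * y 2 a)
    have h3 := hadd (y 0 a) (r1 * y 1 a)
    have h4 := hmul r1 (y 1 a)
    have h5 := hmul r2 (y 2 a)
    have h6 := hyB 0 a
    have h7 := hyB 1 a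
    have h8 := hyB 2 a
    omega
  have hxw : ∀ a, algebraMap K L (x (s a)) = α 0 * w a := by
    intro a
    rw [hαy, Fin.sum_univ_three, hw, hr1, hr2]
    have := hα0 0
    field_simp
  obtain ⟨z, hz⟩ : ∃ z : Fin (n + 1) → L, z = fun j => ∑ a, algebraMap K L (P j a) * w a :=
    ⟨_, rfl⟩
  have hzB : ∀ j, h1 k (z j) ≤ c3 * M + 9 * h1 k t := by
    intro j
    rw [hz]
    show h1 k (∑ a, algebraMap K L (P j a) * w a) ≤ _
    refine (h1_sum hadd hz0 _ _).trans ?_
    have h2 : ∀ a ∈ (Finset.univ : Finset (Fin 3)), h1 k (algebraMap K L (P j a) * w a) ≤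
        M + (3 * (c1 * M) + 4 * (c2 * M) + 3 * h1 k t) := by
      intro a _
      have h3 := hmul (algebraMap K L (P j a)) (w a)
      have h4 := hKB _ (hH.hp j a)
      have h5 := hwB a
      omega
    refine (Finset.sum_le_sum h2).trans ?_
    rw [Finset.sum_const, Finset.card_univ, Fintype.card_fin, smul_eq_mul, hc3]
    apply le_of_eq
    ring
  have hxz : ∀ j, algebraMap K L (x j) = α 0 * z j := by
    intro j
    rw [hcon.plane j, map_sum, hz, Finset.mul_sum]
    refine Finset.sum_congr rfl fun a _ => ?_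
    rw [map_mul, hxw]
    ring
  have hzp : α 0 * z p = 1 := by rw [← hxz, hp, map_one]
  have hxB : ∀ j, h1 k (algebraMap K L (x j)) ≤ 2 * (c3 * M) + 18 * h1 k t := by
    intro j
    have h2 : algebraMap K L (x j) = z j / z p := by
      have h3 : z p ≠ 0 := by
        intro h0
        rw [h0, mul_zero] at hzp
        exact zero_ne_one hzp
      rw [hxz]
      field_simp
      linear_combination (z j) * hzp
    rw [h2]
    have h3 := hdiv (z j) (z p)
    have h4 := hzB j
    have h5 := hzB p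
    omega
  have hfin : Module.finrank K L * deg k x ≤ (n + 1) * (2 * (c3 * M) + 18 * h1 k t) := by
    have h2 := ((hHTA k K htr 0 0).2.2.2.2 (Fin (n + 1)) x).2
    refine (Nat.mul_le_mul_left _ h2).trans ?_
    rw [Finset.mul_sum]
    have h3 : ∀ i ∈ (Finset.univ : Finset (Fin (n + 1))), Module.finrank K L * h1 k (x i) ≤
        2 * (c3 * M) + 18 * h1 k t := by
      intro i _
      rw [← hK]
      exact hxB i
    refine (Finset.sum_le_sum h3).trans ?_
    rw [Finset.sum_const, Finset.card_univ, Fintype.card_fin, smul_eq_mul]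
  rw [← hqL, ← hy, ← ht, ← hM]
  refine hfin.trans ?_
  rw [mul_assoc]
  apply Nat.mul_le_mul_left
  nlinarith [Nat.zero_le (c3 * h1 k t), Nat.zero_le M, Nat.zero_le (h1 k t)]

end Pool.Agent.H17.BO
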