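import Pool.Agent.H17.BO.TargetsF
import Pool.Agent.H17.VG.PSI
import Pool.Agent.H66.VG.VE

/-!
# MP_70ba79_ag: border case, the final statement with an exceptional hypersurface of `X`
-/

set_option autoImplicit false

namespace Pool.Agent.H17.BO

open MvPolynomial SC Pool.Agent.H27.LV Pool.Agent.H17.VG

theorem fin_res (hFIN : T_FINB) : ∀ n e : ℕ, 1 ≤ n → n + 1 ≤ e → 3 * n ≤ 2 * e + 1 → ∃ C : ℕ,
    ∀ (k : Type) [Field k] [IsAlgClosed k] [CharZero k] (c : Mon (n + 1) (e + 1) → k),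
    AlgebraicIndependent ℚ c →
    DegreeBoundOff k (eqs c)
      (fun K _ _ z => excLine c K z ∨ (3 * n = 2 * e + 1 ∧ excConic c K z)) (fun χ => C * χ) ∧
    (∃ Ψ : MvPolynomial (Mon (n + 1) (e + 1)) k,
      (∃ z : Mon (n + 1) (e + 1) → k, (∀ g ∈ eqs c, aeval z g = 0) ∧ aeval z Ψ ≠ 0) ∧
      ∀ (K : Type) [Field K] [Algebra k K] (z : Mon (n + 1) (e + 1) → K),
        (excLine c K z ∨ excConic c K z) → aeval z Ψ = 0) ∧
    ∀ (K : Type) [Field K] [Algebra k K] (z : Mon (n + 1) (e + 1) → K),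
      (∀ g ∈ eqs c, aeval z g = 0) ↔ ∃ (x : Fin (n + 1) → K) (p : Fin (n + 1)), x p = 1 ∧
        eval x (up K (frm c)) ≠ 0 ∧
        ∀ M : Mon (n + 1) (e + 1), z M = (∏ i, x i ^ M.1 i) / eval x (up K (frm c)) := by
  intro n e hn hne hne2
  obtain ⟨C, hC⟩ := hFIN n e hn hne hne2
  refine ⟨C, ?_⟩
  intro k _ _ _ c hc
  obtain ⟨h1, Φ, m, hΦ, hm, h2⟩ := hC k c hc
  refine ⟨h1, ?_, ?_⟩
  · have hF : frm c ≠ 0 := by
      intro h0
      have h3 : c = 0 := frm_zero h0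
      exact hc.ne_zero (mz n (e + 1) (by omega) 0) (congrFun h3 _)
    obtain ⟨Ψ, hΨ, h3⟩ := psi (by omega) c hF Φ hΦ hm
    refine ⟨Ψ, hΨ, ?_⟩
    rintro K _ _ z (⟨x, y, p, hp, hxy, htwo, -, hz⟩ | ⟨x, b, c', p, hp, hxy, htwo, -, hz⟩)
    · exact h3 K z x hz (h2 K x p hp (Or.inl ⟨y, hxy, htwo⟩))
    · exact h3 K z x hz (h2 K x p hp (Or.inr ⟨b, c', hxy, htwo⟩))
  · intro K _ _ z
    refine ⟨fun h => Pool.Agent.H66.VG.ve k K n (e + 1) c z (by omega) h, ?_⟩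
    rintro ⟨x, p, -, hF, hz⟩
    exact pts c z x hF hz

end Pool.Agent.H17.BO
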