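import Pool.Agent.H17.BO.TargetsG

/-!
# MP_70ba79_ag, board `bo_modules`: row RHL (ramification)
-/

set_option autoImplicit false

namespace Pool.Agent.H17.BO

open MvPolynomial SC Pool.Agent.H27.LV Pool.Agent.H17.VG

theorem pf_RHL (hDOR : T_DOR) : T_RHL := by
  intro k K L _ _ _ _ _ _ _ _ _ _ _ _ htr htrL D D' hD hD' hDD v w e he
  have hu : v.ord v.unif = 1 := v.ord_unif
  have h1 : w.ord (algebraMap K L v.unif) = e := by rw [he.2, hu, mul_one]
  have he0 : (0 : ℤ) < e := by exact_mod_cast he.1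
  obtain ⟨-, h2⟩ := (hDOR k L htrL D' hD' w).2.2 (algebraMap K L v.unif) (by omega)
  rw [hDD, he.2, h1] at h2
  unfold ordD at h2 ⊢
  omega

end Pool.Agent.H17.BO
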