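import Pool.Agent.H17.VG.All
import Pool.Agent.H17.BO.ALB
import Pool.Agent.H17.BO.CMP
import Pool.Agent.H17.BO.FINB
import Pool.Agent.H17.BO.HGT
import Pool.Agent.H17.BO.RES
import Pool.Agent.H1.BO.FNL
import Pool.Agent.H1.BO.SG2
import Pool.Agent.H11.BO.ALG
import Pool.Agent.H11.BO.KLL
import Pool.Agent.H11.BO.KLV
import Pool.Agent.H11.BO.TW2
import Pool.Agent.H13.BO.XMC
import Pool.Agent.H15.BO.IMP
import Pool.Agent.H15.BO.KB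
import Pool.Agent.H15.BO.NFC
import Pool.Agent.H15.BO.PAR
import Pool.Agent.H15.BO.QD
import Pool.Agent.H15.BO.UEC
import Pool.Agent.H3.BO.D3
import Pool.Agent.H3.BO.MAT
import Pool.Agent.H37.BO.KLC
import Pool.Agent.H37.BO.NZ3
import Pool.Agent.H37.BO.ONE
import Pool.Agent.H39.BO.DI
import Pool.Agent.H51.BO.FU
import Pool.Agent.H54.BO.LDJ
import Pool.Agent.H56.BO.BAD
import Pool.Agent.H56.BO.CB
import Pool.Agent.H56.BO.SG3
import Pool.Agent.H56.BO.STB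
import Pool.Agent.H59.BO.HTR
import Pool.Agent.H59.BO.TER
import Pool.Agent.H60.BO.OV
import Pool.Agent.H70.BO.FS
import Pool.Agent.H70.BO.GDR
import Pool.Agent.H70.BO.MC3
import Pool.Agent.H70.BO.XC
import Pool.Agent.H72.BO.HLK
import Pool.Agent.H72.BO.TFL
import Pool.Agent.H72.BO.ULF
import Pool.Agent.H72.BO.ULT
import Pool.Agent.H72.BO.XPC
import Pool.Agent.H77.BO.NB3
import Pool.Agent.H78.BO.RS2
import Pool.Agent.H78.BO.SP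
import Pool.Agent.H86.BO.BZ
import Pool.Agent.H86.BO.KL3
import Pool.Agent.H95.BO.HTA
import Pool.Agent.H95.BO.UNT
import Pool.Agent.H60.BO.TF3
import Pool.Agent.H60.BO.TRI
import Pool.Agent.H63.BO.LSL
import Pool.Agent.H63.BO.OLN
import Pool.Agent.H63.BO.EVX
import Pool.Agent.H69.BO.RES
import Pool.Agent.H69.BO.TCO
import Pool.Agent.H19.BO.RK1
import Pool.Agent.H68.BO.ANN
import Pool.Agent.H22.BO.MS
import Pool.Agent.H79.BO.PLN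
import Pool.Agent.H15.BO.TFE
import Pool.Agent.H20.BO.DTT
import Pool.Agent.H20.BO.CSU
import Pool.Agent.H20.BO.DR2
import Pool.Agent.H17.BO.RHL
import Pool.Agent.H49.CI.XEL
import Pool.Agent.H62.FR.TR1

/-!
# MP_70ba79_ag: very general hypersurfaces with the border case, assembly of all modules
-/

set_option autoImplicit false

namespace Pool.Agent.H17.BO

open MvPolynomial SC Pool.Agent.H27.LV Pool.Agent.H17.VG

/-- extensions of function fields and points on conics -/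
theorem mc3_all : T_MC3 := by
  have hOV : T_OV := Pool.Agent.H60.BO.pf_OV
  have hFU : T_FU := Pool.Agent.H51.BO.pf_FU hOV Pool.Agent.H62.FR.tr1 Pool.Agent.H27.LV.rat
  have hFS : T_FS := Pool.Agent.H70.BO.FS.pf_FS hFU hOV
  have hHTA : T_HTA := Pool.Agent.H95.BO.pf_HTA Pool.Agent.H27.LV.pfm
  have hNZ3 : T_NZ3 := Pool.Agent.H37.BO.pf_NZ3
  have hONE : T_ONE := Pool.Agent.H37.BO.pf_ONE
  have hHLK : T_HLK := Pool.Agent.H72.BO.pf_HLK Pool.Agent.H76.KN.v5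
  have hHGT : T_HGT := pf_HGT hONE hNZ3 hHLK hHTA Pool.Agent.H59.BO.pf_HTR
  have hBAD : T_BAD := Pool.Agent.H56.BO.pf_BAD Pool.Agent.H27.LV.pfm hHTA
    Pool.Agent.H39.BO.pf_DI
  have hRHL : T_RHL := pf_RHL Pool.Agent.H27.LV.dor
  have hMS : T_MS := Pool.Agent.H22.BO.pf_MS Pool.Agent.H27.LV.pfm Pool.Agent.H27.LV.dor
    Pool.Agent.H27.LV.tDFI Pool.Agent.H27.LV.pfi hFS hRHL hOV
  have hTCO : T_TCO := Pool.Agent.H69.BO.pf_TCO Pool.Agent.H70.BO.GDR.pf_GDR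
    Pool.Agent.H95.BO.pf_UNT
  exact Pool.Agent.H70.BO.pf_MC3 Pool.Agent.H78.BO.pf_SP hNZ3 hTCO hBAD hHLK hHGT hMS

/-- the algebraic theorem with heights -/
theorem cmp_all (hSO : T_SO) : T_CMP := by
  have hLSL : T_LSL := Pool.Agent.H63.BO.LSL.pf_LSL
  have hOLN : T_OLN := Pool.Agent.H63.BO.OLN.pf_OLN
  have hEVX : T_EVX := Pool.Agent.H63.BO.EVX.pf_EVX Pool.Agent.H77.VG.ip
  have hANN : T_ANN := Pool.Agent.H68.BO.pf_ANN hLSL hEVX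
  have hTRI : T_TRI := Pool.Agent.H60.BO.pf_TRI hANN hOLN
  have hSG3 : T_SG3 := Pool.Agent.H56.BO.pf_SG3 hANN hEVX hOLN
  have hTER : T_TER := Pool.Agent.H59.BO.pf_TER Pool.Agent.H20.BO.pf_DTT
    Pool.Agent.H3.BO.MAT.pf_MAT hTRI hLSL Pool.Agent.H19.BO.pf_RK1 Pool.Agent.H1.BO.pf_SG2 hSG3
  have hALG : T_ALG := Pool.Agent.H11.BO.pf_ALG Pool.Agent.H79.BO.pf_PLN
    Pool.Agent.H69.BO.pf_RES hTER
  have hLDJ : T_LDJ := Pool.Agent.H54.BO.pf_LDJ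
  have hKLV : T_KLV := Pool.Agent.H11.BO.pf_KLV Pool.Agent.H15.BO.pf_QD hSO hALG
    (Pool.Agent.H11.BO.pf_KLL hLDJ)
    (Pool.Agent.H37.BO.pf_KLC hLDJ Pool.Agent.H15.BO.pf_IMP) Pool.Agent.H86.BO.pf_BZ
    Pool.Agent.H86.BO.pf_KL3 Pool.Agent.H15.BO.pf_PAR Pool.Agent.H20.BO.pf_CSU
    Pool.Agent.H11.BO.pf_TW2
  have hHTA : T_HTA := Pool.Agent.H95.BO.pf_HTA Pool.Agent.H27.LV.pfm
  have hULT : T_ULT := Pool.Agent.H72.BO.pf_ULT Pool.Agent.H72.BO.pf_ULF hHTA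
    Pool.Agent.H59.BO.pf_HTR
  exact pf_CMP hHTA hULT hKLV (Pool.Agent.H72.BO.pf_TFL hHTA) Pool.Agent.H15.BO.pf_TFE
    (Pool.Agent.H60.BO.pf_TF3 hHTA)

/-- exceptional conics -/
theorem xc_all : T_XC := by
  have hXMC : T_XMC := Pool.Agent.H13.BO.pf_XMC Pool.Agent.H78.BO.pf_RS2
    Pool.Agent.H20.BO.pf_DR2
  exact Pool.Agent.H70.BO.XC.pf_XC Pool.Agent.H15.BO.pf_NFC
    (Pool.Agent.H15.BO.pf_UEC Pool.Agent.H72.BO.pf_XPC hXMC Pool.Agent.H49.CI.pf_XEL)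

/-- the main theorem, all modules of the boards `vyc_modules`, `vgh_modules` and `bo_modules`
together -/
theorem finb_all : T_FINB := by
  have hOP : T_OP := Pool.Agent.H97.VG.op
  have hWD : T_WD := Pool.Agent.H97.VG.wd
  have hRS : T_RS := Pool.Agent.H52.VG.rs
  have hRO : T_RO := Pool.Agent.H52.VG.ro
  have hIL : T_IL := Pool.Agent.H52.VG.il
  have hSU : T_SU := Pool.Agent.H52.VG.su
  have hLF : T_LF := Pool.Agent.H52.VG.lf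
  have hDG : T_DG := Pool.Agent.H52.VG.dg
  have hJY : T_JY := Pool.Agent.H97.VG.jy hRS hLF
  have hKY : T_KY := Pool.Agent.H97.VG.ky hRS
  have hIM : T_IM := Pool.Agent.H66.VG.im hOP hRS hRO hLF
  have hIQ : T_IQ := Pool.Agent.H66.VG.iq hOP hRO
  have hPS : T_PS := Pool.Agent.H66.VG.ps hOP hRS hRO hIL hSU
  have hET : T_ET := Pool.Agent.H17.VG.ET hRS hKY hPS hIM
  have hRL : T_RL := Pool.Agent.H66.VG.rl hRS Pool.Agent.H97.VG.re Pool.Agent.H97.VG.dc hET hPS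
    hIQ hJY hLF
  have hB : T_B := Pool.Agent.H66.VG.bb hRS hJY hRL hDG hPS
  have hTP : T_TP := Pool.Agent.H66.VG.tp Pool.Agent.H77.VG.ip hSU hOP
  have hSTB : T_STB := Pool.Agent.H56.BO.pf_STB hB Pool.Agent.H56.BO.pf_CB
    Pool.Agent.H15.BO.pf_KB KP Pool.Agent.H97.VG.bi hTP
  have hSM : T_SM := sm hTP hOP hWD
  have hLL : T_LL := ll Pool.Agent.H30.VG.d0
  have hDA : T_DA := Pool.Agent.H92.VG.pf_DA hLL
  have hDB : T_DB := Pool.Agent.H90.VG.db hLL Pool.Agent.H92.VG.pf_GR Pool.Agent.H97.VG.ev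
  have hD : T_D := dd hDA hDB Pool.Agent.H92.VG.pf_SU2 Pool.Agent.H97.VG.na
    (Pool.Agent.H90.VG.nb hOP hWD) hWD hOP
  have hG1 : T_G1 := Pool.Agent.H66.VG.g1
  have hG2 : Pool.Agent.H17.VG.T_G2 := G2 hG1
  have hSO : T_SO := Pool.Agent.H66.VG.so hG2
  have hG : T_G := gg Pool.Agent.H64.VG.fd (Pool.Agent.H64.VG.dx hG1) Pool.Agent.H51.VG.kd
    (Pool.Agent.H92.VG.pf_BS Pool.Agent.H64.VG.fe) Pool.Agent.H97.VG.cd hOP
  have hD3 : T_D3 := Pool.Agent.H3.BO.D3.pf_D3 (Pool.Agent.H77.BO.pf_NB3 hOP hWD)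
    (Pool.Agent.H1.BO.pf_FNL hWD hOP) hDA hDB Pool.Agent.H92.VG.pf_SU2 hOP
    Pool.Agent.H27.LV.pfi
  have hALB : T_ALB := pf_ALB hSTB hSM hD hD3 hG hSO (cmp_all hSO)
  have hLED := Pool.Agent.H22.VGH.pf_LED
  have hCDP := Pool.Agent.H30.VGH.pf_CDP
  have hMM1 : Pool.Agent.H30.VGH.T_MM1 := Pool.Agent.H65.VGH.pf_MM1 Pool.Agent.H30.VGH.pf_SYL hCDP
    (Pool.Agent.H22.VGH.pf_MLO Pool.Agent.H22.VGH.pf_EVA hLED hCDP)
    (Pool.Agent.H34.VGH.pf_MSM Pool.Agent.H27.LV.pfm Pool.Agent.H27.LV.tDFI)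
    (Pool.Agent.H1.VGH.pf_DG3 hLED) (Pool.Agent.H1.VGH.pf_RTB hLED)
    (Pool.Agent.H22.VGH.pf_RIC hCDP) Pool.Agent.H22.VGH.pf_JQN Pool.Agent.H22.VGH.pf_JQB
    Pool.Agent.H27.LV.dor Pool.Agent.H27.LV.ker
  have hMM : Pool.Agent.H30.VGH.T_MM := Pool.Agent.H34.VGH.pf_MM Pool.Agent.H27.LV.pfm hMM1
    Pool.Agent.H22.VGH.pf_GAU Pool.Agent.H22.VGH.pf_EVA Pool.Agent.H65.VGH.pf_RAD
  have hE : T_E := Pool.Agent.H30.VGH.gle (Pool.Agent.H30.VGH.pf_LIN hMM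
    Pool.Agent.H22.VGH.pf_TWI Pool.Agent.H65.VGH.pf_TWP)
  have hX : T_X := Pool.Agent.H30.VGH.glx (Pool.Agent.H30.VGH.pf_XFN Pool.Agent.H19.VGH.pf_ELI
    Pool.Agent.H19.VGH.pf_XDM (Pool.Agent.H19.VGH.pf_XDR Pool.Agent.H33.VGH.pf_DEX))
  exact pf_FINB fin_all (pf_MNB hALB hE mc3_all) Pool.Agent.H66.VG.ve Pool.Agent.H92.VG.pf_VD
    hX xc_all

end Pool.Agent.H17.BO
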