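import Pool.Agent.H17.BO.All
import Pool.Agent.H17.BO.FIPB
import Pool.Agent.H30.VMP.All

/-!
# MP_70ba79_ag: very general log complete intersections together with the border case of a
hypersurface, assembly
-/

set_option autoImplicit false

namespace Pool.Agent.H17.BO

open MvPolynomial SC Pool.Agent.H27.LV Pool.Agent.H17.VG

/-- the main theorem in homogeneous coordinates -/
theorem mnb_all : T_MNB := by
  have hOP : T_OP := Pool.Agent.H97.VG.op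
  have hWD : T_WD := Pool.Agent.H97.VG.wd
  have hRS : T_RS := Pool.Agent.H52.VG.rs
  have hRO : T_RO := Pool.Agent.H52.VG.ro
  have hIL : T_IL := Pool.Agent.H52.VG.il
  have hSU : T_SU := Pool.Agent.H52.VG.su
  have hLF : T_LF := Pool.Agent.H52.VG.lf
  have hDG : T_DG := Pool.Agent.H52.VG.dg
  have hJY : T_JY := Pool.Agent.H97.VG.jy hRS hLF
  have hKY : T_KY := Pool.Agent.H97.VG.ky hRS
  have hIM : T_IM := Pool.Agent.H66.VG.im hOP hRS hRO hLF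
  have hIQ : T_IQ := Pool.Agent.H66.VG.iq hOP hRO
  have hPS : T_PS := Pool.Agent.H66.VG.ps hOP hRS hRO hIL hSU
  have hET : T_ET := Pool.Agent.H17.VG.ET hRS hKY hPS hIM
  have hRL : T_RL := Pool.Agent.H66.VG.rl hRS Pool.Agent.H97.VG.re Pool.Agent.H97.VG.dc hET hPS
    hIQ hJY hLF
  have hB : T_B := Pool.Agent.H66.VG.bb hRS hJY hRL hDG hPS
  have hTP : T_TP := Pool.Agent.H66.VG.tp Pool.Agent.H77.VG.ip hSU hOP
  have hSTB : T_STB := Pool.Agent.H56.BO.pf_STB hB Pool.Agent.H56.BO.pf_CB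
    Pool.Agent.H15.BO.pf_KB KP Pool.Agent.H97.VG.bi hTP
  have hSM : T_SM := sm hTP hOP hWD
  have hLL : T_LL := ll Pool.Agent.H30.VG.d0
  have hDA : T_DA := Pool.Agent.H92.VG.pf_DA hLL
  have hDB : T_DB := Pool.Agent.H90.VG.db hLL Pool.Agent.H92.VG.pf_GR Pool.Agent.H97.VG.ev
  have hD : T_D := dd hDA hDB Pool.Agent.H92.VG.pf_SU2 Pool.Agent.H97.VG.na
    (Pool.Agent.H90.VG.nb hOP hWD) hWD hOP
  have hG1 : T_G1 := Pool.Agent.H66.VG.g1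
  have hG2 : Pool.Agent.H17.VG.T_G2 := G2 hG1
  have hSO : T_SO := Pool.Agent.H66.VG.so hG2
  have hG : T_G := gg Pool.Agent.H64.VG.fd (Pool.Agent.H64.VG.dx hG1) Pool.Agent.H51.VG.kd
    (Pool.Agent.H92.VG.pf_BS Pool.Agent.H64.VG.fe) Pool.Agent.H97.VG.cd hOP
  have hD3 : T_D3 := Pool.Agent.H3.BO.D3.pf_D3 (Pool.Agent.H77.BO.pf_NB3 hOP hWD)
    (Pool.Agent.H1.BO.pf_FNL hWD hOP) hDA hDB Pool.Agent.H92.VG.pf_SU2 hOP
    Pool.Agent.H27.LV.pfi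
  have hALB : T_ALB := pf_ALB hSTB hSM hD hD3 hG hSO (cmp_all hSO)
  have hLED := Pool.Agent.H22.VGH.pf_LED
  have hCDP := Pool.Agent.H30.VGH.pf_CDP
  have hMM1 : Pool.Agent.H30.VGH.T_MM1 := Pool.Agent.H65.VGH.pf_MM1 Pool.Agent.H30.VGH.pf_SYL hCDP
    (Pool.Agent.H22.VGH.pf_MLO Pool.Agent.H22.VGH.pf_EVA hLED hCDP)
    (Pool.Agent.H34.VGH.pf_MSM Pool.Agent.H27.LV.pfm Pool.Agent.H27.LV.tDFI)
    (Pool.Agent.H1.VGH.pf_DG3 hLED) (Pool.Agent.H1.VGH.pf_RTB hLED)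
    (Pool.Agent.H22.VGH.pf_RIC hCDP) Pool.Agent.H22.VGH.pf_JQN Pool.Agent.H22.VGH.pf_JQB
    Pool.Agent.H27.LV.dor Pool.Agent.H27.LV.ker
  have hMM : Pool.Agent.H30.VGH.T_MM := Pool.Agent.H34.VGH.pf_MM Pool.Agent.H27.LV.pfm hMM1
    Pool.Agent.H22.VGH.pf_GAU Pool.Agent.H22.VGH.pf_EVA Pool.Agent.H65.VGH.pf_RAD
  have hE : T_E := Pool.Agent.H30.VGH.gle (Pool.Agent.H30.VGH.pf_LIN hMM
    Pool.Agent.H22.VGH.pf_TWI Pool.Agent.H65.VGH.pf_TWP)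
  exact pf_MNB hALB hE mc3_all

/-- the union of the two main theorems -/
theorem fipb_all : T_FIPB := by
  have hG1 := Pool.Agent.H66.VG.g1
  have hXDD := Pool.Agent.H17.CI.pf_XDD hG1
  have hXFT : Pool.Agent.H30.VM.T_XFT := Pool.Agent.H30.VMP.pf_XFT Pool.Agent.H6.CI.pf_GPT
    (Pool.Agent.H45.CI.pf_NZT hXDD) (Pool.Agent.H18.VMP.pf_XMT hXDD) Pool.Agent.H49.CI.pf_XEL
    Pool.Agent.H91.VMP.pf_XPO Pool.Agent.H45.CI.pf_NST Pool.Agent.H30.VMP.pf_NFT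
  exact pf_FIPB Pool.Agent.H30.VMP.fip_all mnb_all Pool.Agent.H49.VMP.pf_PTA
    (Pool.Agent.H59.VM.pf_PTB Pool.Agent.H45.CI.pf_NST)
    (Pool.Agent.H95.VMP.pf_VDP Pool.Agent.H92.VG.pf_VD) hXFT Pool.Agent.H19.VMP.pf_PSP xc_all

end Pool.Agent.H17.BO
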