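import Pool.Agent.H17.VG.TargetsF

/-!
# MP_70ba79_ag: very general hypersurfaces, border case `2 d = 3 n + 1`

Common definitions of the modules of the board `bo_modules`. Notation as in `Pool/Agent/H17/VG`:
`F` is a form of degree `e + 1`, `n = 2 δ + 1`, `e = 3 δ + 1`.
-/

set_option autoImplicit false

namespace Pool.Agent.H17.BO

open MvPolynomial SC Pool.Agent.H27.LV Pool.Agent.H17.VG

section Basic

variable {K : Type} [Field K] {n : ℕ}

/-- the linear functional on forms of degree `d` with the value `y M` on the monomial `M` -/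
noncomputable def fnl {d : ℕ} (y : Mon (n + 1) d → K) (G : MvPolynomial (Fin (n + 1)) K) : K :=
  ∑ M, y M * coeff (fs M.1) G

/-- the determinant with the rows `x`, `y 0 (X Q)`, `y 1 (X Q)` and the columns `a 0, a 1, a 2` -/
noncomputable def det3 {d : ℕ} (x : Fin (n + 1) → K) (y : Fin 2 → Mon (n + 1) d → K)
    (Q : MvPolynomial (Fin (n + 1)) K) (a : Fin 3 → Fin (n + 1)) : K :=
  (Matrix.of fun t r : Fin 3 =>
    (![x (a t), fnl (y 0) (X (a t) * Q), fnl (y 1) (X (a t) * Q)] : Fin 3 → K) r).det

/-- two functionals `y b` on forms of degree `d` which belong to two independent functionals `ν b`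
on vectors: the value on `X_j ∂_a F` is `- x_j ν_b(a)` -/
structure Fun2 {m d : ℕ} (G : Fin m → MvPolynomial (Fin (n + 1)) K) (x : Fin (n + 1) → K)
    (y : Fin 2 → Mon (n + 1) d → K) (ν : Fin 2 → Fin m → K) : Prop where
  ind : LinearIndependent K ν
  grad : ∀ b j a, fnl (y b) (X j * G a) = -(x j * ν b a)

/-- restriction to the conic `x + T b + T ^ 2 c` -/
noncomputable def res2 (x b c : Fin (n + 1) → K) (G : MvPolynomial (Fin (n + 1)) K) :
    Polynomial K := aeval (fun i => Polynomial.C (x i) + Polynomial.C (b i) * Polynomial.X +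
      Polynomial.C (c i) * Polynomial.X ^ 2) G

/-- the restriction of `F` to the conic `x + T b + T ^ 2 c` has at most two different zeros:
`F (x + T b + T ^ 2 c) = F (x) (1 + α T) ^ i (1 + β T) ^ j`, `i + j = 2 d` -/
def TwoRoots2 (d : ℕ) (F : MvPolynomial (Fin (n + 1)) K) (x b c : Fin (n + 1) → K) : Prop :=
  ∃ (α β : AlgebraicClosure K) (i j : ℕ), i + j = 2 * d ∧
    (res2 x b c F).map (algebraMap K (AlgebraicClosure K)) =
      Polynomial.C (algebraMap K (AlgebraicClosure K) (eval x F)) *
        (1 + Polynomial.C α * Polynomial.X) ^ i * (1 + Polynomial.C β * Polynomial.X) ^ j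

/-- no exceptional lines and conics through `x` -/
structure NoExc (d : ℕ) (F : MvPolynomial (Fin (n + 1)) K) (x : Fin (n + 1) → K) : Prop where
  line : ∀ y, Indep x y → ¬ TwoRoots d F x y
  conic : ∀ b c, LinearIndependent K ![x, b, c] → ¬ TwoRoots2 d F x b c

/-- A plane, a nondegenerate conic `q` in it through `x` and three points `Y 0, Y 1, Y 2` of the
conic with `F = 0`. The plane is given by `X j = ∑ P j a * X (s a)`. The coordinates `Y j a` of the
points are polynomials in a root of `U`, and `V` is the inverse of their determinant. -/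
structure Con3 (F : MvPolynomial (Fin (n + 1)) K) (x : Fin (n + 1) → K)
    (s : Fin 3 → Fin (n + 1)) (P : Fin (n + 1) → Fin 3 → K) (q : Matrix (Fin 3) (Fin 3) K)
    (U V : Polynomial K) (Y : Fin 3 → Fin 3 → Polynomial K) : Prop where
  plane : ∀ j, x j = ∑ a, P j a * x (s a)
  symm : q.IsSymm
  det : q.det ≠ 0
  on : ∑ a, ∑ b, q a b * x (s a) * x (s b) = 0
  monic : U.Monic
  sep : U.Separable
  deg1 : 1 ≤ U.natDegree
  con : ∀ j, U ∣ ∑ a, ∑ b, Polynomial.C (q a b) * Y j a * Y j b
  pts : ∀ j, U ∣ aeval (fun i => ∑ a, Polynomial.C (P i a) * Y j a) F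
  inv : U ∣ (Matrix.of Y).det * V - 1

end Basic

section Rational

variable {k L : Type} [Field k] [Field L] [Algebra k L] {m : ℕ}

/-- `x` is on a line which is rational over `k` -/
def OnLine (k : Type) {L : Type} [Field k] [Field L] [Algebra k L] {m : ℕ} (x : Fin m → L) :
    Prop :=
  ∃ (u v : Fin m → k) (s t : L), ∀ i, x i = s * algebraMap k L (u i) + t * algebraMap k L (v i)

/-- `x` is on a conic which is rational over `k` (and has a rational point): `l (s ^ 2 a + s t b + t ^ 2 c)`
-/
def OnConic (k : Type) {L : Type} [Field k] [Field L] [Algebra k L] {m : ℕ} (x : Fin m → L) :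
    Prop :=
  ∃ a b c : Fin m → k, LinearIndependent k ![a, b, c] ∧ ∃ l s t : L, ∀ i,
    x i = l * (s ^ 2 * algebraMap k L (a i) + s * t * algebraMap k L (b i) +
      t ^ 2 * algebraMap k L (c i))

/-- heights of the data of `Con3` are at most `B`, degrees at most `N` -/
structure Con3H (k : Type) {K : Type} [Field k] [Field K] [Algebra k K] {n : ℕ} (N B : ℕ)
    (P : Fin (n + 1) → Fin 3 → K) (q : Matrix (Fin 3) (Fin 3) K) (U V : Polynomial K)
    (Y : Fin 3 → Fin 3 → Polynomial K) : Prop where
  hp : ∀ j a, h1 k (P j a) ≤ B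
  hq : ∀ a b, h1 k (q a b) ≤ B
  hU : hP k U ≤ B
  hV : hP k V ≤ B
  hY : ∀ j a, hP k (Y j a) ≤ B
  dU : U.natDegree ≤ N
  dV : V.natDegree ≤ N
  dY : ∀ j a, (Y j a).natDegree ≤ N

end Rational

end Pool.Agent.H17.BO
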