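import Pool.Agent.H17.BO.Defs

/-!
# MP_70ba79_ag: targets of the board `bo_modules`, part A (steps and determinants)

Compare `Pool/Agent/H17/VG/TargetsC.lean` and `Pool/Agent/H17/VG/TargetsD.lean`.
-/

set_option autoImplicit false

namespace Pool.Agent.H17.BO

open MvPolynomial SC Pool.Agent.H27.LV Pool.Agent.H17.VG

/-- CB: the lemma on steps in the border case `dim N = 2 δ`: either the conclusion of T_C, or
`δ - 1` steps of exactly `2` and one more step gives everything -/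
def T_CB : Prop := ∀ (K V E N : Type) [Field K] [CharZero K] [AddCommGroup V] [Module K V]
  [AddCommGroup E] [Module K E] [AddCommGroup N] [Module K N] [FiniteDimensional K V]
  [FiniteDimensional K N] (B : V →ₗ[K] E →ₗ[K] N) (δ : ℕ), 1 ≤ δ →
  Module.finrank K N = 2 * δ → Submodule.span K {w | ∃ v q, w = B v q} = ⊤ →
  (∀ φ : V →ₗ[K] K, φ ≠ 0 → Module.finrank K N ≤
    Module.finrank K (Submodule.span K {w | ∃ v q, φ v = 0 ∧ w = B v q}) + δ) →
  (∃ Q : Fin (δ - 1) → E, 2 * δ ≤ Module.finrank K (im B Q) + 1) ∨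
  ∃ (Q : Fin (δ - 1) → E) (q : E), Module.finrank K (im B Q) + 2 = 2 * δ ∧
    im B (Sum.elim Q fun _ : Unit => q) = ⊤

/-- KB: the second alternative with points over an infinite subfield -/
def T_KB : Prop := ∀ (k K V N κ : Type) [Field k] [Infinite k] [Field K] [Algebra k K]
  [AddCommGroup V] [Module K V] [AddCommGroup N] [Module K N] [FiniteDimensional K N] [Finite κ]
  (B : V →ₗ[K] (κ → K) →ₗ[K] N) (s r : ℕ),
  (∀ Q : Fin s → κ → K, Module.finrank K (im B Q) ≤ r) →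
  ∀ (Q : Fin s → κ → K) (q : κ → K), Module.finrank K (im B Q) = r →
  im B (Sum.elim Q fun _ : Unit => q) = ⊤ →
  ∃ (Q' : Fin s → κ → k) (q' : κ → k),
    Module.finrank K (im B fun i j => algebraMap k K (Q' i j)) = r ∧
    im B (Sum.elim (fun i j => algebraMap k K (Q' i j))
      fun (_ : Unit) j => algebraMap k K (q' j)) = ⊤

/-- STB: the steps in the border case `n = 2 δ + 1`, `e = 3 δ + 1` -/
def T_STB : Prop := ∀ (R k K : Type) [Field R] [Field k] [Field K] [CharZero k] [CharZero K]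
  [Algebra k K] [Algebra R K] (n e δ : ℕ) (F : MvPolynomial (Fin (n + 1)) K)
  (D : Derivation R K K) (x : Fin (n + 1) → K), 1 ≤ δ → n = 2 * δ + 1 → e = 3 * δ + 1 →
  Sys (e + 1) F D → Indep x (fun i => D (x i)) → eval x F ≠ 0 →
  (∀ y, Indep x y → ¬ TwoRoots (e + 1) F x y) →
  (∃ Q : Fin (δ - 1) → Mon (n + 1) e → k,
    n ≤ Module.finrank K (Ut R F x (PQ x fun j => up K (frm (Q j))))) ∨
  ∃ (Q : Fin (δ - 1) → Mon (n + 1) e → k) (q : Mon (n + 1) e → k),
    Module.finrank K (Ut R F x (PQ x fun j => up K (frm (Q j)))) + 1 = n ∧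
    Ut R F x (PQ x (Sum.elim (fun j => up K (frm (Q j))) fun _ : Unit => up K (frm q))) = ⊤

/-- NB3: choice of columns, third case: codimension two. `σ`, `ν` do not depend on the last form
`q`. -/
def T_NB3 : Prop := ∀ (R k K : Type) [Field R] [Field k] [Field K] [CharZero K]
  [Algebra k K] [Algebra R K] (n e s : ℕ) (F : MvPolynomial (Fin (n + 1)) K)
  (D : Derivation k K K) (D' : Derivation R K K) (x : Fin (n + 1) → K) (p : Fin (n + 1)),
  x p = 1 → Sys (e + 1) F D' → (∀ z, D' z = D z) → Indep x (fun i => D (x i)) →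
  ∀ (Q : Fin s → MvPolynomial (Fin (n + 1)) K) (τ : Fin (n + 1) → Fin s → Op R K n),
  (∀ i j, opF (τ i j) F = X i * Q j) →
  Module.finrank K (Ut R F x (PQ x Q)) + 1 = n →
  ∃ (T : Finset (Fin (n + 1) × Fin s))
    (e0 : (T ⊕ Fin 3) ⊕ Fin 2 ≃ Fin (n + 1) ⊕ Fin (s + 1)) (σ : K)
    (ν : Fin 2 → Fin (n + 1) → K), σ ≠ 0 ∧ LinearIndependent K ν ∧
    (∀ b, ∀ w ∈ Ut R F x (PQ x Q), ∑ i, ν b i * w i = 0) ∧ (∀ b, ∑ i, ν b i * x i = 0) ∧
    (∀ b, ∑ i, ν b i * D (x i) = 0) ∧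
    ∀ τq : Fin (n + 1) → Op R K n, ∀ a : Fin 3 → Fin (n + 1),
    ((bigM D x (Sum.elim (fun c : T => τ c.1.1 c.1.2) (fun t : Fin 3 => τq (a t)))
      (Sum.elim (fun c => c.1.1) (fun t : Fin 3 => a t))
      (Sum.elim (fun c => c.1.2.castSucc) (fun _ => Fin.last s))).submatrix e0 id).det =
      σ * (Matrix.of fun t r : Fin 3 => (![x (a t), ∑ i, ν 0 i * opV (τq (a t)) x i,
        ∑ i, ν 1 i * opV (τq (a t)) x i] : Fin 3 → K) r).det

/-- FNL: velocities as functionals of the symbol -/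
def T_FNL : Prop := ∀ (R K : Type) [Field R] [Field K] [CharZero K] [Algebra R K] (n e : ℕ)
  (F : MvPolynomial (Fin (n + 1)) K) (D : Derivation R K K) (x ν : Fin (n + 1) → K),
  Sys (e + 1) F D → ∑ i, ν i * D (x i) = 0 →
  ∃ y : Mon (n + 1) (e + 1) → K, (∀ τ : Op R K n, fnl y (opF τ F) = ∑ i, ν i * opV τ x i) ∧
    ∀ j a, fnl y (X j * pderiv a F) = -(x j * ν a)

/-- D3: the height inequality in the border case: heights of all determinants `det3` -/
def T_D3 : Prop := ∀ (R k K : Type) [Field R] [Field k] [IsAlgClosed k] [CharZero k] [Field K]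
  [Algebra k K] [Algebra R K] [Algebra.EssFiniteType k K], Algebra.trdeg k K = 1 →
  ∀ (n e s : ℕ), e = n + (s + 1) → ∀ (F : MvPolynomial (Fin (n + 1)) k),
  F.IsHomogeneous (e + 1) →
  (∀ z : Fin (n + 1) → k, z ≠ 0 → ∃ j, eval z (pderiv j F) ≠ 0) →
  ∀ (D : Derivation k K K) (D' : Derivation R K K), D ≠ 0 → (∀ z, D' z = D z) →
  Sys (e + 1) (up K F) D' →
  (∀ G : MvPolynomial (Fin (n + 1)) k, G.IsHomogeneous (e + 1) →
    ∃ τ : Op R K n, RatOp k τ ∧ opF τ (up K F) = up K G) →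
  ∀ (x : Fin (n + 1) → K) (p : Fin (n + 1)), x p = 1 → Indep x (fun i => D (x i)) →
  eval x (up K F) ≠ 0 → ∀ S : Finset (DV k K),
  (∀ v, v ∉ S → v.ord (eval x (up K F)) = -((e + 1 : ℕ) * poleOrder v x)) →
  ∀ (Q : Fin s → Mon (n + 1) e → k) (q : Mon (n + 1) e → k),
  Module.finrank K (Ut R (up K F) x (PQ x fun j => up K (frm (Q j)))) + 1 = n →
  Ut R (up K F) x (PQ x (Sum.elim (fun j => up K (frm (Q j)))
    fun _ : Unit => up K (frm q))) = ⊤ →
  ∃ (y : Fin 2 → Mon (n + 1) (e + 1) → K) (ν : Fin 2 → Fin (n + 1) → K),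
    Fun2 (fun a => pderiv a (up K F)) x y ν ∧ (∀ b, ∑ i, ν b i * x i = 0) ∧
    ∃ a0 : Fin 3 → Fin (n + 1), det3 x y (up K (frm q)) a0 ≠ 0 ∧
    ∀ (κ : Type) [Fintype κ] (f : κ → Mon (n + 1) e → k) (a : κ → Fin 3 → Fin (n + 1)),
      (deg k (fun c : κ => det3 x y (up K (frm (f c))) (a c) /
        det3 x y (up K (frm q)) a0) : ℤ) ≤ canDeg D + S.card

end Pool.Agent.H17.BO
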