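import Pool.Agent.H17.BO.TargetsD

/-!
# MP_70ba79_ag: targets of the board `bo_modules`, part E (points on a conic of small height)

Compare `Pool/Agent/H17/VG/TargetsE.lean`.
-/

set_option autoImplicit false

namespace Pool.Agent.H17.BO

open MvPolynomial SC Pool.Agent.H27.LV Pool.Agent.H17.VG

/-- `z` is integral at `w` and the derivation `D'` is as small on it as on unramified functions
(`e` is the ramification index of `w` over `v`) -/
def GD {k K L : Type} [Field k] [Field K] [Field L] [Algebra k K] [Algebra k L]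
    (v : DV k K) (w : DV k L) (e : ℕ) (D : Derivation k K K) (D' : Derivation k L L) (z : L) :
    Prop := ge w 0 z ∧ ge w (e * ordD v D) (D' z)

/-- GDR: rules for `GD` -/
def T_GDR : Prop := ∀ (k K L : Type) [Field k] [IsAlgClosed k] [CharZero k] [Field K] [Field L]
  [Algebra k K] [Algebra k L] [Algebra K L] [IsScalarTower k K L] [FiniteDimensional K L]
  [Algebra.EssFiniteType k K], Algebra.trdeg k K = 1 → ∀ (D : Derivation k K K)
  (D' : Derivation k L L), D ≠ 0 → (∀ z : K, D' (algebraMap K L z) = algebraMap K L (D z)) →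
  ∀ (v : DV k K) (w : DV k L) (e : ℕ), Over v w e →
  (∀ a : K, ge v 0 a → GD v w e D D' (algebraMap K L a)) ∧
  (∀ z z' : L, GD v w e D D' z → GD v w e D D' z' →
    GD v w e D D' (z + z') ∧ GD v w e D D' (z * z') ∧ GD v w e D D' (-z)) ∧
  (∀ z : L, GD v w e D D' z → z ≠ 0 → w.ord z = 0 → GD v w e D D' z⁻¹) ∧
  ∀ (U : Polynomial K) (θ : L), (∀ i, ge v 0 (U.coeff i)) →
    (U.map (algebraMap K L)).eval θ = 0 → 0 ≤ w.ord θ →
    (Polynomial.derivative (U.map (algebraMap K L))).eval θ ≠ 0 →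
    w.ord ((Polynomial.derivative (U.map (algebraMap K L))).eval θ) = 0 →
    GD v w e D D' θ ∧ ∀ Y : Polynomial K, (∀ i, ge v 0 (Y.coeff i)) →
      GD v w e D D' (Polynomial.aeval θ Y)

/-- UNT: coordinates with respect to three points of a conic are units -/
def T_UNT : Prop := ∀ (k L : Type) [Field k] [CharZero k] [Field L] [Algebra k L] (w : DV k L)
  (y : Fin 3 → Fin 3 → L) (q : Matrix (Fin 3) (Fin 3) L) (d : ℕ) (G : MvPolynomial (Fin 3) L)
  (x : Fin 3 → L), 1 ≤ d → G.IsHomogeneous d → (∀ m, ge w 0 (coeff m G)) →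
  (∀ i j, ge w 0 (y i j)) → (Matrix.of y).det ≠ 0 → w.ord (Matrix.of y).det = 0 →
  (∀ i j, ge w 0 (q i j)) → q.IsSymm → q.det ≠ 0 → w.ord q.det = 0 →
  (∀ j, bil q (y j) (y j) = 0) → (∀ j, eval (y j) G = 0) → (∀ i, ge w 0 (x i)) →
  bil q x x = 0 → eval x G ≠ 0 → w.ord (eval x G) = 0 →
  (∀ i j, i ≠ j → bil q (y i) (y j) ≠ 0 ∧ w.ord (bil q (y i) (y j)) = 0) ∧
  ∃ α : Fin 3 → L, (∀ a, x a = ∑ j, α j * y j a) ∧ ∀ j, α j ≠ 0 ∧ w.ord (α j) = 0

/-- the parameter `t` -/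
noncomputable def tco {L : Type} [Field L] (q : Matrix (Fin 3) (Fin 3) L) (y : Fin 3 → Fin 3 → L)
    (α : Fin 3 → L) : L := -(bil q (y 1) (y 2) * α 1) / (bil q (y 0) (y 2) * α 0)

/-- ONE: identities for `t` -/
def T_ONE : Prop := ∀ (L : Type) [Field L] [CharZero L] (q : Matrix (Fin 3) (Fin 3) L)
  (y : Fin 3 → Fin 3 → L) (α : Fin 3 → L), q.IsSymm → (∀ j, bil q (y j) (y j) = 0) →
  (∀ i j, i ≠ j → bil q (y i) (y j) ≠ 0) → (∀ j, α j ≠ 0) →
  bil q (fun a => ∑ j, α j * y j a) (fun a => ∑ j, α j * y j a) = 0 →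
  tco q y α ≠ 0 ∧
  1 - tco q y α = -(bil q (y 0) (y 1) * α 1) / (bil q (y 0) (y 2) * α 2) ∧
  1 - tco q y α ≠ 0 ∧
  α 1 / α 0 = -(bil q (y 0) (y 2) / bil q (y 1) (y 2)) * tco q y α ∧
  α 2 / α 0 = bil q (y 0) (y 1) / bil q (y 1) (y 2) * (tco q y α / (1 - tco q y α))

/-- NZ3: the coordinates of `x` with respect to the three points are not zero -/
def T_NZ3 : Prop := ∀ (K L : Type) [Field K] [CharZero K] [Field L] [Algebra K L] (n d : ℕ)
  (F : MvPolynomial (Fin (n + 1)) K) (x : Fin (n + 1) → K), 1 ≤ d → F.IsHomogeneous d →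
  eval x F ≠ 0 → ∀ (s : Fin 3 → Fin (n + 1)) (P : Fin (n + 1) → Fin 3 → K)
  (q : Matrix (Fin 3) (Fin 3) K) (U V : Polynomial K) (Y : Fin 3 → Fin 3 → Polynomial K),
  Con3 F x s P q U V Y → ∀ θ : L, (U.map (algebraMap K L)).eval θ = 0 →
  (Matrix.of fun j a => Polynomial.aeval θ (Y j a)).det ≠ 0 ∧
  (∀ j, bil (q.map (algebraMap K L)) (fun a => Polynomial.aeval θ (Y j a))
    (fun a => Polynomial.aeval θ (Y j a)) = 0) ∧
  (∀ i j, i ≠ j → bil (q.map (algebraMap K L)) (fun a => Polynomial.aeval θ (Y i a))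
    (fun a => Polynomial.aeval θ (Y j a)) ≠ 0) ∧
  ∃ α : Fin 3 → L, (∀ a, algebraMap K L (x (s a)) = ∑ j, α j * Polynomial.aeval θ (Y j a)) ∧
    ∀ j, α j ≠ 0

/-- TCO: `t` at the good places -/
def T_TCO : Prop := ∀ (k K L : Type) [Field k] [IsAlgClosed k] [CharZero k] [Field K] [Field L]
  [Algebra k K] [Algebra k L] [Algebra K L] [IsScalarTower k K L] [FiniteDimensional K L]
  [Algebra.EssFiniteType k K], Algebra.trdeg k K = 1 → ∀ (D : Derivation k K K)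
  (D' : Derivation k L L), D ≠ 0 → (∀ z : K, D' (algebraMap K L z) = algebraMap K L (D z)) →
  ∀ (n d : ℕ) (F : MvPolynomial (Fin (n + 1)) k) (x : Fin (n + 1) → K) (p : Fin (n + 1)),
  1 ≤ d → F.IsHomogeneous d → x p = 1 → eval x (up K F) ≠ 0 →
  ∀ (s : Fin 3 → Fin (n + 1)) (P : Fin (n + 1) → Fin 3 → K)
  (q : Matrix (Fin 3) (Fin 3) K) (U V : Polynomial K) (Y : Fin 3 → Fin 3 → Polynomial K),
  Con3 (up K F) x s P q U V Y → ∀ θ : L, (U.map (algebraMap K L)).eval θ = 0 →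
  ∀ α : Fin 3 → L,
  (∀ a, algebraMap K L (x (s a)) = ∑ j, α j * Polynomial.aeval θ (Y j a)) →
  ∀ (v : DV k K) (w : DV k L) (e : ℕ), Over v w e → (∀ j a, ge v 0 (P j a)) →
  (∀ a b, ge v 0 (q a b)) → v.ord q.det = 0 → (∀ i, ge v 0 (U.coeff i)) →
  (∀ i, ge v 0 (V.coeff i)) → (∀ j a i, ge v 0 ((Y j a).coeff i)) → 0 ≤ w.ord θ →
  w.ord ((Polynomial.derivative (U.map (algebraMap K L))).eval θ) = 0 →
  v.ord (eval x (up K F)) = -(d * poleOrder v x) →
  w.ord (tco (q.map (algebraMap K L)) (fun j a => Polynomial.aeval θ (Y j a)) α) = 0 ∧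
  w.ord (1 - tco (q.map (algebraMap K L)) (fun j a => Polynomial.aeval θ (Y j a)) α) = 0 ∧
  ge w (e * ordD v D)
    (D' (tco (q.map (algebraMap K L)) (fun j a => Polynomial.aeval θ (Y j a)) α))

/-- BAD: the bad places -/
def T_BAD : Prop := ∀ n N : ℕ, ∃ C : ℕ, ∀ (k K : Type) [Field k] [IsAlgClosed k] [CharZero k]
  [Field K] [Algebra k K] [Algebra.EssFiniteType k K], Algebra.trdeg k K = 1 →
  ∀ (P : Fin (n + 1) → Fin 3 → K) (q : Matrix (Fin 3) (Fin 3) K) (U V : Polynomial K)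
    (Y : Fin 3 → Fin 3 → Polynomial K) (B : ℕ), q.det ≠ 0 → U.Monic → U.Separable →
  Con3H k N B P q U V Y → ∃ T : Finset (DV k K), T.card ≤ C * B ∧ ∀ v, v ∉ T →
    (∀ j a, ge v 0 (P j a)) ∧ (∀ a b, ge v 0 (q a b)) ∧ v.ord q.det = 0 ∧
    (∀ i, ge v 0 (U.coeff i)) ∧ (∀ i, ge v 0 (V.coeff i)) ∧
    (∀ j a i, ge v 0 ((Y j a).coeff i)) ∧
    ∀ (L : Type) [Field L] [Algebra K L] [Algebra k L] [IsScalarTower k K L],
      Polynomial.Splits (U.map (algebraMap K L)) → ∀ (w : DV k L) (e : ℕ), Over v w e →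
      ∀ θ : L, (U.map (algebraMap K L)).eval θ = 0 → 0 ≤ w.ord θ ∧
        w.ord ((Polynomial.derivative (U.map (algebraMap K L))).eval θ) = 0

/-- HLK: heights in extensions -/
def T_HLK : Prop := ∀ (k K L : Type) [Field k] [IsAlgClosed k] [CharZero k] [Field K] [Field L]
  [Algebra k K] [Algebra k L] [Algebra K L] [IsScalarTower k K L] [FiniteDimensional K L]
  [Algebra.EssFiniteType k K] [Algebra.EssFiniteType k L], Algebra.trdeg k K = 1 →
  Algebra.trdeg k L = 1 →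
  (∀ a : K, h1 k (algebraMap K L a) = Module.finrank K L * h1 k a) ∧
  ∀ D' : Derivation k L L, D' ≠ 0 → ∀ t : L, D' t = 0 → h1 k t = 0

/-- HGT: from `t` to `x` -/
def T_HGT : Prop := ∀ n N : ℕ, ∃ C : ℕ, ∀ (k K L : Type) [Field k] [IsAlgClosed k] [CharZero k]
  [Field K] [Field L] [Algebra k K] [Algebra k L] [Algebra K L] [IsScalarTower k K L]
  [FiniteDimensional K L] [Algebra.EssFiniteType k K] [Algebra.EssFiniteType k L],
  Algebra.trdeg k K = 1 → Algebra.trdeg k L = 1 → ∀ (d : ℕ)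
  (F : MvPolynomial (Fin (n + 1)) K) (x : Fin (n + 1) → K) (p : Fin (n + 1)), 1 ≤ d →
  F.IsHomogeneous d → x p = 1 → eval x F ≠ 0 →
  ∀ (s : Fin 3 → Fin (n + 1)) (P : Fin (n + 1) → Fin 3 → K) (q : Matrix (Fin 3) (Fin 3) K)
  (U V : Polynomial K) (Y : Fin 3 → Fin 3 → Polynomial K) (B : ℕ), Con3 F x s P q U V Y →
  Con3H k N B P q U V Y → ∀ θ : L, (U.map (algebraMap K L)).eval θ = 0 → ∀ α : Fin 3 → L,
  (∀ a, algebraMap K L (x (s a)) = ∑ j, α j * Polynomial.aeval θ (Y j a)) →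
  Module.finrank K L * deg k x ≤ C * (h1 k (tco (q.map (algebraMap K L))
    (fun j a => Polynomial.aeval θ (Y j a)) α) + Module.finrank K L * B)

/-- MC3: points on a conic of small height with three points on the hypersurface -/
def T_MC3 : Prop := ∀ n d N : ℕ, 1 ≤ d → ∃ C : ℕ, ∀ (k K : Type) [Field k] [IsAlgClosed k]
  [CharZero k] [Field K] [Algebra k K] [Algebra.EssFiniteType k K], Algebra.trdeg k K = 1 →
  ∀ (D : Derivation k K K), D ≠ 0 → ∀ (F : MvPolynomial (Fin (n + 1)) k), F.IsHomogeneous d →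
  ∀ (x : Fin (n + 1) → K) (p : Fin (n + 1)), x p = 1 → eval x (up K F) ≠ 0 →
  ∀ (s : Fin 3 → Fin (n + 1)) (P : Fin (n + 1) → Fin 3 → K) (q : Matrix (Fin 3) (Fin 3) K)
  (U V : Polynomial K) (Y : Fin 3 → Fin 3 → Polynomial K) (B : ℕ),
  Con3 (up K F) x s P q U V Y → Con3H k N B P q U V Y → ∀ S : Finset (DV k K),
  (∀ v, v ∉ S → v.ord (eval x (up K F)) = -(d * poleOrder v x)) → 0 ≤ canDeg D + S.card →
  (deg k x : ℤ) ≤ C * (canDeg D + S.card + B)

end Pool.Agent.H17.BO
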