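import Pool.Agent.H17.BO.TargetsA
import Pool.Agent.H17.BO.TargetsC
import Pool.Agent.H17.BO.TargetsE
import Pool.Agent.H17.BO.TargetsX

/-!
# MP_70ba79_ag: targets of the board `bo_modules`, part F (final statements)
-/

set_option autoImplicit false

namespace Pool.Agent.H17.BO

open MvPolynomial SC Pool.Agent.H27.LV Pool.Agent.H17.VG

/-- ALB: the alternative -/
def T_ALB : Prop := ∀ n e δ : ℕ, 1 ≤ δ → n = 2 * δ + 1 → e = 3 * δ + 1 → ∃ C : ℕ,
  ∀ (k : Type) [Field k] [IsAlgClosed k] [CharZero k] (c : Mon (n + 1) (e + 1) → k),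
  AlgebraicIndependent ℚ c → ∀ (K : Type) [Field K] [Algebra k K] [Algebra.EssFiniteType k K],
  Algebra.trdeg k K = 1 → ∀ (D : Derivation k K K), D ≠ 0 → ∀ (x : Fin (n + 1) → K)
  (p : Fin (n + 1)), x p = 1 → (∃ j, x j ∉ Set.range (algebraMap k K)) →
  eval x (up K (frm c)) ≠ 0 → NoExc (e + 1) (up K (frm c)) x → ∀ S : Finset (DV k K),
  (∀ v, v ∉ S → v.ord (eval x (up K (frm c))) = -((e + 1 : ℕ) * poleOrder v x)) →
  0 ≤ canDeg D + S.card ∧ ((deg k x : ℤ) ≤ C * (canDeg D + S.card) ∨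
  (∃ (y : Fin (n + 1) → K) (a b : Fin (n + 1)), Indep x y ∧ x a * y b - x b * y a ≠ 0 ∧
    (hln k x y a b : ℤ) ≤ C * (canDeg D + S.card)) ∨
  ∃ (s : Fin 3 → Fin (n + 1)) (P : Fin (n + 1) → Fin 3 → K) (q : Matrix (Fin 3) (Fin 3) K)
    (U V : Polynomial K) (Y : Fin 3 → Fin 3 → Polynomial K) (B : ℕ),
    Con3 (up K (frm c)) x s P q U V Y ∧ Con3H k C B P q U V Y ∧
    (B : ℤ) ≤ C * (canDeg D + S.card))

/-- MNB: the main theorem, in homogeneous coordinates -/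
def T_MNB : Prop := ∀ n e δ : ℕ, 1 ≤ δ → n = 2 * δ + 1 → e = 3 * δ + 1 → ∃ C : ℕ,
  ∀ (k : Type) [Field k] [IsAlgClosed k] [CharZero k] (c : Mon (n + 1) (e + 1) → k),
  AlgebraicIndependent ℚ c → ∀ (K : Type) [Field K] [Algebra k K] [Algebra.EssFiniteType k K],
  Algebra.trdeg k K = 1 → ∀ (D : Derivation k K K), D ≠ 0 → ∀ (x : Fin (n + 1) → K)
  (p : Fin (n + 1)), x p = 1 → (∃ j, x j ∉ Set.range (algebraMap k K)) →
  eval x (up K (frm c)) ≠ 0 → NoExc (e + 1) (up K (frm c)) x → ∀ S : Finset (DV k K),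
  (∀ v, v ∉ S → v.ord (eval x (up K (frm c))) = -((e + 1 : ℕ) * poleOrder v x)) →
  (deg k x : ℤ) ≤ C * (canDeg D + S.card)

/-- the point of `X` lies on a smooth conic which meets the hypersurface in at most two points -/
def excConic {k : Type} [Field k] {n d : ℕ} (c : Mon (n + 1) d → k) (K : Type) [Field K]
    [Algebra k K] (z : Mon (n + 1) d → K) : Prop :=
  ∃ (x b c' : Fin (n + 1) → K) (p : Fin (n + 1)), x p = 1 ∧ LinearIndependent K ![x, b, c'] ∧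
    TwoRoots2 d (up K (frm c)) x b c' ∧ eval x (up K (frm c)) ≠ 0 ∧
    ∀ M : Mon (n + 1) d, z M = (∏ i, x i ^ M.1 i) / eval x (up K (frm c))

/-- FINB: Q1 for the complement of a very general hypersurface of degree `e + 1`, `n + 1 ≤ e`,
`3 n ≤ 2 e + 1`. Exceptional conics are needed only if `3 n = 2 e + 1`. -/
def T_FINB : Prop := ∀ n e : ℕ, 1 ≤ n → n + 1 ≤ e → 3 * n ≤ 2 * e + 1 → ∃ C : ℕ,
  ∀ (k : Type) [Field k] [IsAlgClosed k] [CharZero k] (c : Mon (n + 1) (e + 1) → k),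
  AlgebraicIndependent ℚ c →
  DegreeBoundOff k (eqs c) (fun K _ _ z => excLine c K z ∨ (3 * n = 2 * e + 1 ∧ excConic c K z))
    (fun χ => C * χ) ∧
  ∃ (Φ : MvPolynomial (Fin (n + 1)) k) (m : ℕ), Φ ≠ 0 ∧ Φ.IsHomogeneous m ∧
    ∀ (K : Type) [Field K] [Algebra k K] (x : Fin (n + 1) → K) (p : Fin (n + 1)), x p = 1 →
      ((∃ y, Indep x y ∧ TwoRoots (e + 1) (up K (frm c)) x y) ∨
        ∃ b c', LinearIndependent K ![x, b, c'] ∧
          TwoRoots2 (e + 1) (up K (frm c)) x b c') → eval x (up K Φ) = 0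

end Pool.Agent.H17.BO
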