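import Pool.Agent.H17.BO.TargetsE

/-!
# MP_70ba79_ag: targets of the board `bo_modules`, part G (extensions of function fields)

The other targets of this part are `T_SP`, `T_OV`, `T_FU`, `T_FS`, `T_DI`, `T_MS` of
`Pool/Agent/H17/VG/TargetsE.lean`.
-/

set_option autoImplicit false

namespace Pool.Agent.H17.BO

open MvPolynomial SC Pool.Agent.H27.LV Pool.Agent.H17.VG

/-- RHL: ramification (local form of the formula of Riemann and Hurwitz) -/
def T_RHL : Prop := ∀ (k K L : Type) [Field k] [IsAlgClosed k] [CharZero k] [Field K] [Field L]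
  [Algebra k K] [Algebra k L] [Algebra K L] [IsScalarTower k K L] [FiniteDimensional K L]
  [Algebra.EssFiniteType k K] [Algebra.EssFiniteType k L], Algebra.trdeg k K = 1 →
  Algebra.trdeg k L = 1 → ∀ (D : Derivation k K K) (D' : Derivation k L L), D ≠ 0 → D' ≠ 0 →
  (∀ z : K, D' (algebraMap K L z) = algebraMap K L (D z)) →
  ∀ (v : DV k K) (w : DV k L) (e : ℕ), Over v w e → ordD w D' = e * ordD v D - (e - 1)

end Pool.Agent.H17.BO
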